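import Pool.Agent.Lib.KV.B.SpecU

set_option autoImplicit false

open Set Filter Topology Metric MeasureTheory

namespace KVB

open KP

namespace BarAux

variable {V : Type} {d : ℕ}

/-- The set `{(x, ξ) | x ∈ D, N x ξ ≤ 1}`. -/
def AS (D : Set V) (N : V → (Fin d → ℝ) → ℝ) : Set (V × (Fin d → ℝ)) :=
  {p | p.1 ∈ D ∧ N p.1 p.2 ≤ 1}

/-- The unit ball. -/
def BS (n : (Fin d → ℝ) → ℝ) : Set (Fin d → ℝ) := {ξ | n ξ ≤ 1}

/-- The equivariant field. -/
noncomputable def fld (D : Set V) (N : V → (Fin d → ℝ) → ℝ) (τ : (Fin d → ℝ) →ₗ[ℝ] ℝ) (x : V) :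
    Fin d → ℝ :=
  (volume (Prod.mk x ⁻¹' AS D N)).toReal⁻¹ •
    ∫ ξ, (AS D N).indicator (fun p => τ p.2 • p.2) (x, ξ)

theorem fld_eq (D : Set V) (N : V → (Fin d → ℝ) → ℝ) (τ : (Fin d → ℝ) →ₗ[ℝ] ℝ) {x : V}
    (hx : x ∈ D) (hm : MeasurableSet (BS (N x))) :
    fld D N τ x = (volume (BS (N x))).toReal⁻¹ • ∫ ξ in BS (N x), τ ξ • ξ := by
  have h1 : Prod.mk x ⁻¹' AS D N = BS (N x) := by
    ext ξ
    exact ⟨fun h => h.2, fun h => ⟨hx, h⟩⟩
  have h2 : (fun ξ => (AS D N).indicator (fun p : V × (Fin d → ℝ) => τ p.2 • p.2) (x, ξ)) =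
      (BS (N x)).indicator (fun ξ => τ ξ • ξ) := by
    funext ξ
    by_cases h : ξ ∈ BS (N x)
    · rw [indicator_of_mem h, indicator_of_mem (show (x, ξ) ∈ AS D N from ⟨hx, h⟩)]
    · rw [indicator_of_notMem h, indicator_of_notMem (fun h' => h h'.2)]
  rw [fld, h1, h2, integral_indicator hm]

/-- The bounds by compactness. -/
theorem bounds [NormedAddCommGroup V] [NormedSpace ℂ V] {D : Set V}
    {N : V → (Fin d → ℝ) → ℝ}
    (hc : ContinuousOn (fun p : V × (Fin d → ℝ) => N p.1 p.2) (D ×ˢ univ))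
    (hn : ∀ x ∈ D, (∀ ξ η, N x (ξ + η) ≤ N x ξ + N x η) ∧
        (∀ (t : ℝ) ξ, N x (t • ξ) = |t| * N x ξ) ∧ ∀ ξ, ξ ≠ 0 → 0 < N x ξ)
    {Q : Set V} (hQ : Q ⊆ D) (hQc : IsCompact Q) :
    ∃ c > 0, ∃ C > 0, ∀ x ∈ Q, ∀ ξ, c * ‖ξ‖ ≤ N x ξ ∧ N x ξ ≤ C * ‖ξ‖ := by
  have hK : IsCompact (Q ×ˢ sphere (0 : Fin d → ℝ) 1) := hQc.prod (isCompact_sphere _ _)
  have hcK : ContinuousOn (fun p : V × (Fin d → ℝ) => N p.1 p.2)
      (Q ×ˢ sphere (0 : Fin d → ℝ) 1) :=
    hc.mono (prod_mono hQ (subset_univ _))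
  obtain ⟨c, hc0, hc1⟩ := hK.exists_forall_le' hcK (a := 0) (by
    rintro ⟨x, ξ⟩ ⟨h1, h2⟩
    refine (hn x (hQ h1)).2.2 ξ ?_
    rintro rfl
    simp at h2)
  obtain ⟨C, hC⟩ := hK.bddAbove_image hcK
  refine ⟨c, hc0, max C 1, lt_max_of_lt_right one_pos, fun x hx ξ => ?_⟩
  by_cases h0 : ξ = 0
  · subst h0
    have := (hn x (hQ hx)).2.1 0 0
    rw [smul_zero, abs_zero, zero_mul] at this
    rw [this, norm_zero]
    simp
  · have hp : 0 < ‖ξ‖ := norm_pos_iff.2 h0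
    have hs : (x, ‖ξ‖⁻¹ • ξ) ∈ Q ×ˢ sphere (0 : Fin d → ℝ) 1 := by
      refine ⟨hx, ?_⟩
      rw [mem_sphere_zero_iff_norm, norm_smul, norm_inv, norm_norm, inv_mul_cancel₀ hp.ne']
    have h1 := hc1 _ hs
    have h2 : N x (‖ξ‖⁻¹ • ξ) ≤ C := hC ⟨_, hs, rfl⟩
    have h3 : N x ξ = ‖ξ‖ * N x (‖ξ‖⁻¹ • ξ) := by
      have := (hn x (hQ hx)).2.1 ‖ξ‖⁻¹ ξ
      rw [this, abs_of_pos (inv_pos.2 hp), ← mul_assoc, mul_inv_cancel₀ hp.ne', one_mul]
    rw [h3]
    have h4 : N x (‖ξ‖⁻¹ • ξ) ≤ max C 1 := le_max_of_le_left h2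
    constructor
    · rw [mul_comm]
      exact mul_le_mul_of_nonneg_left h1 hp.le
    · rw [mul_comm (max C 1)]
      exact mul_le_mul_of_nonneg_left h4 hp.le

theorem cont_fib [NormedAddCommGroup V] [NormedSpace ℂ V] {D : Set V}
    {N : V → (Fin d → ℝ) → ℝ}
    (hc : ContinuousOn (fun p : V × (Fin d → ℝ) => N p.1 p.2) (D ×ˢ univ)) {x : V}
    (hx : x ∈ D) : Continuous (N x) := by
  have h1 : ContinuousOn (fun ξ : Fin d → ℝ => ((x, ξ) : V × (Fin d → ℝ))) univ := by fun_prop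
  have h2 := hc.comp h1 (fun ξ _ => ⟨hx, mem_univ _⟩)
  exact continuousOn_univ.1 h2

theorem BS_closed {n : (Fin d → ℝ) → ℝ} (h : Continuous n) : IsClosed (BS n) :=
  isClosed_le h continuous_const

theorem BS_sub {n : (Fin d → ℝ) → ℝ} {c : ℝ} (hc : 0 < c) (h : ∀ ξ, c * ‖ξ‖ ≤ n ξ) :
    BS n ⊆ closedBall 0 (1 / c) := by
  intro ξ hξ
  rw [mem_closedBall_zero_iff, le_div_iff₀ hc, mul_comm]
  exact (h ξ).trans hξ

theorem BS_sup {n : (Fin d → ℝ) → ℝ} {C : ℝ} (hC : 0 < C) (h : ∀ ξ, n ξ ≤ C * ‖ξ‖) :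
    ball 0 (1 / C) ⊆ BS n := by
  intro ξ hξ
  rw [mem_ball_zero_iff, lt_div_iff₀ hC, mul_comm] at hξ
  exact (h ξ).trans hξ.le

theorem BS_compact {n : (Fin d → ℝ) → ℝ} (hn : Continuous n) {c : ℝ} (hc : 0 < c)
    (h : ∀ ξ, c * ‖ξ‖ ≤ n ξ) : IsCompact (BS n) :=
  (isCompact_closedBall (0 : Fin d → ℝ) (1 / c)).of_isClosed_subset (BS_closed hn) (BS_sub hc h)

theorem vol_pos {n : (Fin d → ℝ) → ℝ} (hn : Continuous n) {c : ℝ} (hc : 0 < c)
    (h : ∀ ξ, c * ‖ξ‖ ≤ n ξ) {C : ℝ} (hC : 0 < C) (h' : ∀ ξ, n ξ ≤ C * ‖ξ‖) :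
    0 < (volume (BS n)).toReal := by
  refine ENNReal.toReal_pos ?_ (BS_compact hn hc h).measure_lt_top.ne
  exact ((measure_ball_pos volume (0 : Fin d → ℝ) (by positivity : 0 < 1 / C)).trans_le
    (measure_mono (BS_sup hC h'))).ne'

theorem cont_tau (τ : (Fin d → ℝ) →ₗ[ℝ] ℝ) : Continuous τ := τ.continuous_of_finiteDimensional

theorem meas_fld [NormedAddCommGroup V] [NormedSpace ℂ V] [MeasurableSpace V] [BorelSpace V]
    {D : Set V} (hD : IsOpen D) {N : V → (Fin d → ℝ) → ℝ}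
    (hc : ContinuousOn (fun p : V × (Fin d → ℝ) => N p.1 p.2) (D ×ˢ univ))
    (τ : (Fin d → ℝ) →ₗ[ℝ] ℝ) : Measurable (fld D N τ) := by
  have hO : IsOpen (D ×ˢ (univ : Set (Fin d → ℝ))) := hD.prod isOpen_univ
  have hO2 := hc.isOpen_inter_preimage hO (isOpen_Ioi (a := (1 : ℝ)))
  have hA : MeasurableSet (AS D N) := by
    have : AS D N = (D ×ˢ (univ : Set (Fin d → ℝ))) \
        (D ×ˢ (univ : Set (Fin d → ℝ)) ∩ (fun p : V × (Fin d → ℝ) => N p.1 p.2) ⁻¹' Ioi 1) := by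
      ext p
      constructor
      · rintro ⟨h1, h2⟩
        exact ⟨⟨h1, mem_univ _⟩, fun h => (not_lt.2 h2) h.2⟩
      · rintro ⟨h1, h2⟩
        exact ⟨h1.1, not_lt.1 fun h => h2 ⟨h1, h⟩⟩
    rw [this]
    exact hO.measurableSet.diff hO2.measurableSet
  have h1 : Measurable fun x => (volume (Prod.mk x ⁻¹' AS D N)).toReal⁻¹ :=
    (measurable_measure_prodMk_left hA).ennreal_toReal.inv
  have h2 : StronglyMeasurable (fun ξ : Fin d → ℝ => τ ξ • ξ) :=
    ((cont_tau τ).smul continuous_id).stronglyMeasurable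
  have h3 : StronglyMeasurable (fun p : V × (Fin d → ℝ) => τ p.2 • p.2) :=
    h2.comp_measurable measurable_snd
  have h4 := (h3.indicator hA).integral_prod_right' (ν := volume)
  exact h1.smul h4.measurable

end BarAux

open BarAux

theorem tBar : S_Bar := by
  intro V _ _ _ _ _ D hD d N hc hn τ hτ
  have hmB : ∀ x ∈ D, MeasurableSet (BS (N x)) := fun x hx =>
    (BS_closed (cont_fib hc hx)).measurableSet
  have hctf : Continuous (fun ξ : Fin d → ℝ => τ ξ • ξ) := (cont_tau τ).smul continuous_id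
  refine ⟨fld D N τ, meas_fld hD hc τ, ?_, ?_, ?_⟩
  · -- bounded on compact sets
    intro Q hQ hQc
    obtain ⟨c, hc0, C, hC0, hb⟩ := bounds hc hn hQ hQc
    set T : (Fin d → ℝ) →L[ℝ] ℝ := LinearMap.toContinuousLinearMap τ with hT
    refine ⟨‖T‖ * (1 / c) * (1 / c), fun x hx => ?_⟩
    have hcx := cont_fib hc (hQ hx)
    have hK := BS_compact hcx hc0 (fun ξ => (hb x hx ξ).1)
    have hv := vol_pos hcx hc0 (fun ξ => (hb x hx ξ).1) hC0 (fun ξ => (hb x hx ξ).2)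
    rw [fld_eq D N τ (hQ hx) (hmB x (hQ hx)), norm_smul, norm_inv, Real.norm_of_nonneg hv.le]
    have h1 : ‖∫ ξ in BS (N x), τ ξ • ξ‖ ≤
        ‖T‖ * (1 / c) * (1 / c) * (volume (BS (N x))).toReal := by
      refine norm_setIntegral_le_of_norm_le_const hK.measure_lt_top (fun ξ hξ => ?_)
      have h2 : ‖ξ‖ ≤ 1 / c := mem_closedBall_zero_iff.1 (BS_sub hc0 (fun ξ => (hb x hx ξ).1) hξ)
      rw [norm_smul]
      have h3 : ‖τ ξ‖ ≤ ‖T‖ * (1 / c) :=
        (T.le_opNorm ξ).trans (mul_le_mul_of_nonneg_left h2 (norm_nonneg _))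
      exact mul_le_mul h3 h2 (norm_nonneg _) (by positivity)
    calc (volume (BS (N x))).toReal⁻¹ * ‖∫ ξ in BS (N x), τ ξ • ξ‖
        ≤ (volume (BS (N x))).toReal⁻¹ *
          (‖T‖ * (1 / c) * (1 / c) * (volume (BS (N x))).toReal) :=
          mul_le_mul_of_nonneg_left h1 (inv_nonneg.2 hv.le)
      _ = ‖T‖ * (1 / c) * (1 / c) := by field_simp
  · -- positivity
    intro x hx
    obtain ⟨c, hc0, C, hC0, hb⟩ := bounds hc hn (singleton_subset_iff.2 hx) isCompact_singleton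
    have hb' := hb x rfl
    have hcx := cont_fib hc hx
    have hK := BS_compact hcx hc0 (fun ξ => (hb' ξ).1)
    have hv := vol_pos hcx hc0 (fun ξ => (hb' ξ).1) hC0 (fun ξ => (hb' ξ).2)
    rw [fld_eq D N τ hx (hmB x hx), map_smul, smul_eq_mul]
    refine mul_pos (inv_pos.2 hv) ?_
    have hint : Integrable (fun ξ : Fin d → ℝ => τ ξ • ξ) (volume.restrict (BS (N x))) :=
      hctf.continuousOn.integrableOn_compact hK
    have h1 := (LinearMap.toContinuousLinearMap τ).integral_comp_comm hint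
    have h2 : τ (∫ ξ in BS (N x), τ ξ • ξ) = ∫ ξ in BS (N x), τ ξ * τ ξ := by
      have h3 : ∀ ξ : Fin d → ℝ, (LinearMap.toContinuousLinearMap τ) (τ ξ • ξ) = τ ξ * τ ξ := by
        intro ξ
        rw [LinearMap.coe_toContinuousLinearMap', map_smul, smul_eq_mul]
      simp only [h3] at h1
      exact h1.symm
    rw [h2, setIntegral_pos_iff_support_of_nonneg_ae
      (Eventually.of_forall fun ξ => mul_self_nonneg _)
      (((cont_tau τ).mul (cont_tau τ)).continuousOn.integrableOn_compact hK)]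
    obtain ⟨ξ0, hξ0⟩ : ∃ ξ0, τ ξ0 ≠ 0 := by
      by_contra h
      push Not at h
      exact hτ (LinearMap.ext h)
    have hO : IsOpen ({ξ : Fin d → ℝ | τ ξ ≠ 0} ∩ ball 0 (1 / C)) :=
      (isOpen_ne_fun (cont_tau τ) continuous_const).inter isOpen_ball
    refine (hO.measure_pos volume ?_).trans_le (measure_mono ?_)
    · have hne : 0 < ‖ξ0‖ := norm_pos_iff.2 (fun h => hξ0 (by rw [h, map_zero]))
      refine ⟨(1 / (2 * C * ‖ξ0‖)) • ξ0, ?_, ?_⟩
      · change τ _ ≠ 0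
        rw [map_smul, smul_eq_mul]
        exact mul_ne_zero (by positivity) hξ0
      · rw [mem_ball_zero_iff, norm_smul, Real.norm_of_nonneg (by positivity)]
        have : 1 / (2 * C * ‖ξ0‖) * ‖ξ0‖ = 1 / C / 2 := by field_simp
        rw [this]
        exact half_lt_self (by positivity)
    · rintro ξ ⟨h3, h4⟩
      exact ⟨mul_ne_zero h3 h3, BS_sup hC0 (fun ξ => (hb' ξ).2) h4⟩
  · -- equivariance
    intro x hx y hy M hM hτM hNM
    rw [fld_eq D N τ hx (hmB x hx), fld_eq D N τ hy (hmB y hy)]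
    set m : (Fin d → ℝ) →ₗ[ℝ] (Fin d → ℝ) := M.mulVecLin with hm
    set L : (Fin d → ℝ) →L[ℝ] (Fin d → ℝ) := LinearMap.toContinuousLinearMap m with hL
    have hLa : ∀ ξ, L ξ = M.mulVec ξ := fun ξ => rfl
    have hdet : LinearMap.det m = M.det := by
      rw [hm, ← Matrix.toLin'_apply', LinearMap.det_toLin']
    have hd0 : 0 < |M.det| := abs_pos.2 hM.ne_zero
    have him : m '' BS (N x) = BS (N y) := by
      ext η
      constructor
      · rintro ⟨ξ, hξ, rfl⟩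
        change N y (M.mulVec ξ) ≤ 1
        rw [hNM]
        exact hξ
      · intro hη
        have h1 : M.mulVec (M⁻¹.mulVec η) = η := by
          rw [Matrix.mulVec_mulVec, Matrix.mul_nonsing_inv _ hM, Matrix.one_mulVec]
        refine ⟨M⁻¹.mulVec η, ?_, h1⟩
        change N x (M⁻¹.mulVec η) ≤ 1
        rw [← hNM, h1]
        exact hη
    have hinj : Function.Injective m := by
      intro ξ η h
      have h1 : M.mulVec ξ = M.mulVec η := h
      have h2 : M⁻¹.mulVec (M.mulVec ξ) = M⁻¹.mulVec (M.mulVec η) := by rw [h1]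
      rwa [Matrix.mulVec_mulVec, Matrix.mulVec_mulVec, Matrix.nonsing_inv_mul _ hM,
        Matrix.one_mulVec, Matrix.one_mulVec] at h2
    obtain ⟨c, hc0, C, hC0, hb⟩ := bounds hc hn (singleton_subset_iff.2 hx) isCompact_singleton
    have hb' := hb x rfl
    have hcx := cont_fib hc hx
    have hK := BS_compact hcx hc0 (fun ξ => (hb' ξ).1)
    have hv := vol_pos hcx hc0 (fun ξ => (hb' ξ).1) hC0 (fun ξ => (hb' ξ).2)
    have hvol : (volume (BS (N y))).toReal = |M.det| * (volume (BS (N x))).toReal := by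
      rw [← him, Measure.addHaar_image_linearMap, hdet, ENNReal.toReal_mul,
        ENNReal.toReal_ofReal (abs_nonneg _)]
    have hint : Integrable (fun ξ : Fin d → ℝ => τ ξ • ξ) (volume.restrict (BS (N x))) :=
      hctf.continuousOn.integrableOn_compact hK
    have hI : ∫ ξ in BS (N y), τ ξ • ξ = |M.det| • L (∫ ξ in BS (N x), τ ξ • ξ) := by
      rw [← him]
      have h1 := integral_image_eq_integral_abs_det_fderiv_smul volume (hmB x hx)
        (f := m) (f' := fun _ => L) (fun ξ _ => L.hasFDerivAt.hasFDerivWithinAt)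
        hinj.injOn (fun ξ : Fin d → ℝ => τ ξ • ξ)
      rw [h1, ← L.integral_comp_comm hint, ← integral_smul]
      refine integral_congr_ae (Eventually.of_forall fun ξ => ?_)
      have h2 : L.det = M.det := by
        rw [← hdet, ContinuousLinearMap.det]
        rfl
      have h3 : τ (m ξ) = τ ξ := hτM ξ
      simp only [h2, h3, map_smul]
      rfl
    rw [hvol, hI, hLa, Matrix.mulVec_smul, smul_smul]
    congr 1
    field_simp

end KVB
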