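import Pool.Agent.Lib.KV.B.SpecU

set_option autoImplicit false

open Set Filter Topology Metric

namespace KVB

open KP

namespace ChiAux

/-- A smooth function, positive on the compact set `K`. -/
lemma exists_psi {V : Type} [NormedAddCommGroup V] [NormedSpace ℂ V] [FiniteDimensional ℂ V]
    {D K : Set V} (hD : IsOpen D) (hK : IsCompact K) (hKD : K ⊆ D) :
    ∃ ψ : V → ℝ, ContDiff ℝ 1 ψ ∧ HasCompactSupport ψ ∧ tsupport ψ ⊆ D ∧ (∀ x, 0 ≤ ψ x) ∧
      ∀ x ∈ K, 0 < ψ x := by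
  have : FiniteDimensional ℝ V := FiniteDimensional.complexToReal V
  have h1 : ∀ x : V, ∃ f : V → ℝ, x ∈ K → (tsupport f ⊆ D ∧ HasCompactSupport f ∧
      ContDiff ℝ 1 f ∧ range f ⊆ Icc 0 1 ∧ f x = 1) := by
    intro x
    by_cases hx : x ∈ K
    · obtain ⟨f, hf⟩ := exists_contDiff_tsupport_subset (n := 1) (hD.mem_nhds (hKD hx))
      exact ⟨f, fun _ => hf⟩
    · exact ⟨0, fun h => absurd h hx⟩
  choose f hf using h1
  have h2 : ∀ x ∈ K, {y | 0 < f x y} ∈ 𝓝 x := by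
    intro x hx
    have hc : Continuous (f x) := (hf x hx).2.2.1.continuous
    apply (isOpen_lt continuous_const hc).mem_nhds
    show 0 < f x x
    rw [(hf x hx).2.2.2.2]
    exact one_pos
  obtain ⟨t, htK, ht⟩ := hK.elim_nhds_subcover (fun x => {y | 0 < f x y}) h2
  have hnn : ∀ x ∈ t, ∀ y, 0 ≤ f x y := fun x hx y =>
    ((hf x (htK x hx)).2.2.2.1 (mem_range_self y)).1
  have hcl : IsClosed (⋃ x ∈ t, tsupport (f x)) := by
    apply Set.Finite.isClosed_biUnion t.finite_toSet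
    intro x _
    exact isClosed_tsupport _
  have hcp : IsCompact (⋃ x ∈ t, tsupport (f x)) := by
    apply t.isCompact_biUnion
    intro x hx
    exact (hf x (htK x hx)).2.1
  have hts : tsupport (fun y => ∑ x ∈ t, f x y) ⊆ ⋃ x ∈ t, tsupport (f x) := by
    apply closure_minimal _ hcl
    intro y hy
    obtain ⟨x, hx, hxy⟩ := Finset.exists_ne_zero_of_sum_ne_zero hy
    exact mem_biUnion hx (subset_tsupport _ hxy)
  refine ⟨fun y => ∑ x ∈ t, f x y, ?_, ?_, ?_, ?_, ?_⟩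
  · exact ContDiff.sum fun x hx => (hf x (htK x hx)).2.2.1
  · exact hcp.of_isClosed_subset (isClosed_tsupport _) hts
  · refine hts.trans ?_
    apply iUnion₂_subset
    intro x hx
    exact (hf x (htK x hx)).1
  · intro y
    exact Finset.sum_nonneg fun x hx => hnn x hx y
  · intro y hy
    obtain ⟨x, hx, hxy⟩ := mem_iUnion₂.1 (ht hy)
    exact Finset.sum_pos' (fun x hx => hnn x hx y) ⟨x, hx, hxy⟩

end ChiAux

open ChiAux

theorem tChi  : S_Chi := by
  intro V _ _ _ D hD Γ _ ρ hρ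
  have : FiniteDimensional ℝ V := FiniteDimensional.complexToReal V
  have : ProperSpace V := FiniteDimensional.proper ℂ V
  obtain ⟨K, hKD, hK, hcoc⟩ := hρ.coc
  obtain ⟨ψ, hψs, hψc, hψD, hψ0, hψK⟩ := exists_psi hD hK hKD
  set P : Set V := tsupport ψ with hP
  have hPc : IsCompact P := hψc
  -- local finiteness
  have hfin : ∀ Q ⊆ D, IsCompact Q → ∃ G : Finset Γ, ∀ x ∈ Q, ∀ γ, ψ (ρ γ x) ≠ 0 → γ ∈ G := by
    intro Q hQD hQ
    have h1 := hρ.pd (Q ∪ P) (union_subset hQD hψD) (hQ.union hPc)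
    refine ⟨h1.toFinset, ?_⟩
    intro x hx γ hγ
    rw [Set.Finite.mem_toFinset]
    exact ⟨ρ γ x, ⟨x, Or.inl hx, rfl⟩, Or.inr (subset_tsupport _ hγ)⟩
  have hfin1 : ∀ x ∈ D, (Function.support fun γ => ψ (ρ γ x)).Finite := by
    intro x hx
    obtain ⟨G, hG⟩ := hfin {x} (singleton_subset_iff.2 hx) isCompact_singleton
    exact G.finite_toSet.subset fun γ hγ => hG x rfl γ hγ
  set S : V → ℝ := fun x => ∑ᶠ γ, ψ (ρ γ x) with hS
  have hSn : ∀ x, 0 ≤ S x := fun x => finsum_nonneg fun γ => hψ0 _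
  have hSp : ∀ x ∈ D, 0 < S x := by
    intro x hx
    obtain ⟨γ, hγ⟩ := hcoc x hx
    exact lt_of_lt_of_le (hψK _ hγ)
      (single_le_finsum γ (hfin1 x hx) fun γ' => hψ0 _)
  have hSi : ∀ x ∈ D, ∀ γ, S (ρ γ x) = S x := by
    intro x hx γ
    have h1 : S (ρ γ x) = ∑ᶠ γ', ψ (ρ (γ' * γ) x) := by
      apply finsum_congr
      intro γ'
      rw [hρ.mul γ' γ x hx]
    rw [h1]
    exact finsum_comp_equiv (Equiv.mulRight γ) (f := fun γ' => ψ (ρ γ' x))
  have hρs : ∀ γ, ∀ x ∈ D, ContDiffAt ℝ 1 (ρ γ) x := by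
    intro γ x hx
    have h1 := Pool.Agent.Lib.Osgood.analyticOnNhd hD (hρ.dif γ) x hx
    exact (h1.contDiffAt (n := 1)).restrict_scalars ℝ
  have hSs : ∀ x ∈ D, ContDiffAt ℝ 1 S x := by
    intro x hx
    obtain ⟨r, hr, hrD⟩ := Metric.nhds_basis_closedBall.mem_iff.1 (hD.mem_nhds hx)
    obtain ⟨G, hG⟩ := hfin (closedBall x r) hrD (isCompact_closedBall x r)
    have h1 : ContDiffAt ℝ 1 (fun y => ∑ γ ∈ G, ψ (ρ γ y)) x := by
      apply ContDiffAt.sum
      intro γ _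
      exact (hψs.contDiffAt).comp x (hρs γ x hx)
    apply h1.congr_of_eventuallyEq
    filter_upwards [closedBall_mem_nhds x hr] with y hy
    exact finsum_eq_sum_of_support_subset _ fun γ hγ => hG y hy γ hγ
  have hχs : Function.support (fun x => ψ x / S x) ⊆ Function.support ψ := by
    intro x hx h
    apply hx
    simp only at h ⊢
    rw [h, zero_div]
  refine ⟨fun x => ψ x / S x, ⟨?_, ?_, ?_, ?_⟩, ?_⟩
  · rw [contDiff_iff_contDiffAt]
    intro x
    by_cases hx : x ∈ D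
    · exact (hψs.contDiffAt).div (hSs x hx) (hSp x hx).ne'
    · have h1 : x ∉ tsupport ψ := fun h => hx (hψD h)
      have h2 := notMem_tsupport_iff_eventuallyEq.1 h1
      have h3 : (fun x => ψ x / S x) =ᶠ[𝓝 x] fun _ => 0 := by
        filter_upwards [h2] with y hy
        rw [hy]
        simp
      exact contDiffAt_const.congr_of_eventuallyEq h3
  · exact hψc.mono hχs
  · exact (closure_mono hχs).trans hψD
  · intro x
    exact div_nonneg (hψ0 x) (hSn x)
  · intro x hx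
    constructor
    · apply (hfin1 x hx).subset
      intro γ hγ
      exact hχs hγ
    · have h1 : ∑ᶠ γ, ψ (ρ γ x) / S (ρ γ x) = ∑ᶠ γ, ψ (ρ γ x) * (S x)⁻¹ := by
        apply finsum_congr
        intro γ
        rw [hSi x hx γ, div_eq_mul_inv]
      rw [h1, ← finsum_mul]
      exact mul_inv_cancel₀ (hSp x hx).ne'

end KVB
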