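import Pool.Agent.Lib.KV.B.SpecU

set_option autoImplicit false

open Set Filter Topology Metric

namespace KVB

open KP

theorem tDInt (h1 : S_FlB) : S_DInt := by
  intro V _ _ _ _ _ μ _ D hD X φ hX hφ χ hχ w hw hwb
  have : FiniteDimensional ℝ V := FiniteDimensional.complexToReal V
  have : ProperSpace V := FiniteDimensional.proper ℂ V
  have hPc : IsCompact (tsupport χ) := hχ.cpt
  obtain ⟨hf1, _, hf3⟩ := h1 V D hD X φ hX hφ
  obtain ⟨Q', hQD, hQ, hφQ⟩ := hf1 (tsupport χ) hχ.sub hPc 1
  obtain ⟨C2, hC2⟩ := hwb Q' hQD hQ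
  have hdc : Continuous (fderiv ℝ χ) := hχ.smooth.continuous_fderiv one_ne_zero
  have hXc : ContinuousOn X (tsupport χ) := hX.continuousOn.mono hχ.sub
  -- the derivative of the cut-off along the field
  obtain ⟨C1, hC1⟩ := hPc.exists_bound_of_continuousOn
    (f := fun y => fderiv ℝ χ y (X y)) (hdc.continuousOn.clm_apply hXc)
  have hb0 : ∀ y, y ∉ tsupport χ → fderiv ℝ χ y = 0 := fun y hy =>
    image_eq_zero_of_notMem_tsupport fun h => hy (tsupport_fderiv_subset ℝ h)
  have hC1' : ∀ y, ‖fderiv ℝ χ y (X y)‖ ≤ |C1| := by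
    intro y
    by_cases hy : y ∈ tsupport χ
    · exact (hC1 y hy).trans (le_abs_self _)
    · rw [hb0 y hy]
      simp
  have hmem : ∀ s : ℝ, |s| ≤ 1 → ∀ x ∈ D, φ s x ∈ tsupport χ → x ∈ Q' := by
    intro s hs x hx hxs
    have h2 := hφQ (-s) (by rwa [abs_neg]) (φ s x) hxs
    rwa [← hφ.add _ _ x hx, neg_add_cancel, hφ.zero x hx] at h2
  have hDm : MeasurableSet D := hD.opn.measurableSet
  have hφc : ∀ s, ContinuousOn (φ s) D := fun s => (hφ.dif s).continuousOn
  have hχc : Continuous χ := hχ.smooth.continuous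
  have hmeas : ∀ s, MeasureTheory.AEStronglyMeasurable (fun x => χ (φ s x) * w x)
      (μ.restrict D) := by
    intro s
    exact ((hχc.comp_continuousOn (hφc s)).aestronglyMeasurable hDm).mul hw
  have hint : ∀ u : V → ℝ, MeasureTheory.AEStronglyMeasurable u (μ.restrict D) →
      ∀ C : ℝ, (∀ x ∈ D, ‖u x‖ ≤ Q'.indicator (fun _ => C) x) →
      MeasureTheory.Integrable u (μ.restrict D) := by
    intro u hu C hC
    have h2 : MeasureTheory.Integrable (Q'.indicator fun _ => C) (μ.restrict D) := by
      rw [MeasureTheory.integrable_indicator_iff hQ.measurableSet]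
      have h4 : MeasureTheory.IntegrableOn (fun _ : V => C) Q' μ :=
        (continuous_const.continuousOn).integrableOn_compact hQ
      exact h4.mono_measure MeasureTheory.Measure.restrict_le_self
    apply h2.mono' hu
    rw [MeasureTheory.ae_restrict_iff' hDm]
    exact Eventually.of_forall hC
  have hbd : MeasureTheory.Integrable (Q'.indicator fun _ => |C1| * |C2|) (μ.restrict D) := by
    apply hint _ _ (|C1| * |C2|)
    · intro x _
      rw [Real.norm_eq_abs, abs_of_nonneg]
      apply indicator_nonneg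
      intro _ _
      positivity
    · exact (measurable_const.indicator hQ.measurableSet).aestronglyMeasurable
  have key := hasDerivAt_integral_of_dominated_loc_of_deriv_le
    (μ := μ.restrict D) (𝕜 := ℝ) (x₀ := (0 : ℝ)) (s := ball (0 : ℝ) 1)
    (F := fun s x => χ (φ s x) * w x)
    (F' := fun s x => fderiv ℝ χ (φ s x) (X (φ s x)) * w x)
    (bound := Q'.indicator fun _ => |C1| * |C2|)
    (ball_mem_nhds _ one_pos) (Eventually.of_forall hmeas) ?_ ?_ ?_ hbd ?_
  · have h2 := key.2
    have h3 : (∫ x in D, fderiv ℝ χ (φ 0 x) (X (φ 0 x)) * w x ∂μ) =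
        ∫ x in D, fderiv ℝ χ x (X x) * w x ∂μ := by
      apply MeasureTheory.setIntegral_congr_fun hDm
      intro x hx
      simp only [hφ.zero x hx]
    rw [h3] at h2
    exact h2
  · -- integrable at zero
    obtain ⟨C3, hC3⟩ := hPc.exists_bound_of_continuousOn (f := χ) hχc.continuousOn
    apply hint _ (hmeas 0) (|C3| * |C2|)
    intro x hx
    simp only [hφ.zero x hx]
    by_cases hxP : x ∈ tsupport χ
    · have hxQ : x ∈ Q' := hmem 0 (by simp) x hx (by rwa [hφ.zero x hx])
      rw [indicator_of_mem hxQ, norm_mul]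
      exact mul_le_mul ((hC3 x hxP).trans (le_abs_self _)) ((hC2 x hxQ).trans (le_abs_self _))
        (norm_nonneg _) (abs_nonneg _)
    · rw [image_eq_zero_of_notMem_tsupport hxP, zero_mul, norm_zero]
      apply indicator_nonneg
      intro _ _
      positivity
  · -- measurability of the derivative at zero
    have h2 : ContinuousOn (fun x => fderiv ℝ χ (φ 0 x) (X (φ 0 x))) D :=
      (hdc.comp_continuousOn (hφc 0)).clm_apply
        (hX.continuousOn.comp (hφc 0) (hφ.maps 0))
    exact (h2.aestronglyMeasurable hDm).mul hw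
  · rw [MeasureTheory.ae_restrict_iff' hDm]
    refine Eventually.of_forall fun x hx s hs => ?_
    have hs1 : |s| ≤ 1 := by
      have := mem_ball_zero_iff.1 hs
      rw [Real.norm_eq_abs] at this
      exact this.le
    by_cases hxQ : x ∈ Q'
    · rw [indicator_of_mem hxQ, norm_mul]
      exact mul_le_mul (hC1' _) ((hC2 x hxQ).trans (le_abs_self _)) (norm_nonneg _)
        (abs_nonneg _)
    · have h2 : φ s x ∉ tsupport χ := fun h => hxQ (hmem s hs1 x hx h)
      rw [indicator_of_notMem hxQ, hb0 _ h2]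
      simp
  · rw [MeasureTheory.ae_restrict_iff' hDm]
    refine Eventually.of_forall fun x hx s _ => ?_
    have h2 : HasFDerivAt χ (fderiv ℝ χ (φ s x)) (φ s x) :=
      (hχ.smooth.differentiable one_ne_zero _).hasFDerivAt
    exact (h2.comp_hasDerivAt s (hφ.der x hx s)).mul_const (w x)

end KVB
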