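import Pool.Agent.Lib.KV.B.SpecU

/-!
# KV (MP_64edc4_ag), part B, block U, module EvC: real combinations of complete fields
-/

set_option autoImplicit false

open Set Filter Topology Metric

namespace KVB

open KP

private theorem cpl_zero {V : Type} [NormedAddCommGroup V] [NormedSpace ℂ V] (D : Set V) :
    Cpl D (fun _ : V => (0 : V)) := by
  refine ⟨differentiableOn_const _, fun _ x => x, ?_, ?_, ?_, ?_, ?_⟩
  · exact fun _ => differentiableOn_id
  · exact fun _ => fun x hx => hx
  · exact fun x _ => rfl
  · exact fun s t x _ => rfl
  · exact fun x _ t => hasDerivAt_const t x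

theorem tEvC (h1 : S_Lin) : S_EvC := by
  classical
  intro V _ _ _ D hD d X hX ξ
  have key : ∀ s : Finset (Fin d), Cpl D (fun x => ∑ a ∈ s, (ξ a : ℂ) • X a x) := by
    intro s
    induction s using Finset.induction_on with
    | empty =>
      refine (cpl_zero D).congr fun x _ => ?_
      rw [Finset.sum_empty]
    | insert a s ha ih =>
      have h2 := (h1 V D hD (X a) (hX a)).1 (ξ a)
      refine ((h1 V D hD _ h2).2 _ ih).congr fun x _ => ?_
      rw [Finset.sum_insert ha]
  exact key Finset.univ

end KVB
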