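import Pool.Agent.Lib.KV.B.SpecU

/-!
# KV (MP_64edc4_ag), part B, block U, module Evl: coordinates of fields by finitely many values
-/

set_option autoImplicit false

open Set Filter Topology Metric

namespace KVB

open KP

namespace EvlAux

variable {V : Type} [NormedAddCommGroup V] [NormedSpace ℂ V]

/-- the evaluation at a point as a linear map -/
noncomputable def evL {d : ℕ} (X : Fin d → V → V) (x : V) : (Fin d → ℝ) →ₗ[ℝ] V where
  toFun ξ := ev X ξ x
  map_add' ξ η := by
    simp only [ev, Pi.add_apply, Complex.ofReal_add, add_smul, Finset.sum_add_distrib]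
  map_smul' r ξ := by
    simp only [ev, Pi.smul_apply, smul_eq_mul, Complex.ofReal_mul, mul_smul, RingHom.id_apply,
      Finset.smul_sum]
    exact Finset.sum_congr rfl fun a _ => by rw [Complex.coe_smul]

end EvlAux

open EvlAux in
theorem tEvl : S_Evl := by
  classical
  intro V _ _ _ D d X hind
  let f : (D × (V →L[ℝ] ℝ)) → Module.Dual ℝ (Fin d → ℝ) := fun q =>
    (q.2 : V →ₗ[ℝ] ℝ) ∘ₗ evL X q.1
  have hf : ∀ q ξ, f q ξ = q.2 (ev X ξ q.1) := fun q ξ => rfl
  have htop : Submodule.span ℝ (Set.range f) = ⊤ := by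
    have h1 : (Submodule.span ℝ (Set.range f)).dualCoannihilator = ⊥ := by
      rw [Submodule.eq_bot_iff]
      intro ξ hξ
      rw [Submodule.mem_dualCoannihilator] at hξ
      apply hind
      intro x hx
      by_contra hne
      obtain ⟨g, -, hg⟩ := exists_dual_vector ℝ (ev X ξ x) (norm_ne_zero_iff.2 hne)
      have h2 := hξ (f (⟨x, hx⟩, g)) (Submodule.subset_span ⟨_, rfl⟩)
      rw [hf] at h2
      have h3 : g (ev X ξ x) ≠ 0 := by
        rw [hg]
        simpa using hne
      exact h3 h2
    have h2 := Subspace.dualCoannihilator_dualAnnihilator_eq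
      (W := Submodule.span ℝ (Set.range f))
    rw [h1, Submodule.dualAnnihilator_bot] at h2
    exact h2.symm
  have hc : ∀ a : Fin d, ∃ c : (D × (V →L[ℝ] ℝ)) →₀ ℝ,
      (c.sum fun i r => r • f i) = (LinearMap.proj a : (Fin d → ℝ) →ₗ[ℝ] ℝ) := by
    intro a
    have h1 : (LinearMap.proj a : (Fin d → ℝ) →ₗ[ℝ] ℝ) ∈ Submodule.span ℝ (Set.range f) := by
      rw [htop]
      exact Submodule.mem_top
    exact Finsupp.mem_span_range_iff_exists_finsupp.1 h1
  choose c hc using hc
  let T : Finset (D × (V →L[ℝ] ℝ)) := Finset.univ.biUnion fun a => (c a).support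
  let e : Fin T.card ≃ T := T.equivFin.symm
  refine ⟨T.card, fun i => ((e i).1.1 : V), fun i => (e i).1.2, fun a i => c a (e i).1,
    fun i => (e i).1.1.2, fun ξ a => ?_⟩
  have h1 : ξ a = (c a).sum (fun i r => r • f i) ξ := by
    rw [hc a]
    rfl
  rw [h1, Finsupp.sum, LinearMap.sum_apply]
  have h2 : ∑ i ∈ (c a).support, (c a i • f i) ξ = ∑ i ∈ T, (c a i • f i) ξ := by
    refine Finset.sum_subset ?_ ?_
    · intro i hi
      exact Finset.mem_biUnion.2 ⟨a, Finset.mem_univ a, hi⟩
    · intro i _ hi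
      rw [Finsupp.notMem_support_iff.1 hi, zero_smul]
      rfl
  rw [h2, ← Finset.sum_coe_sort T, ← Equiv.sum_comp e]
  refine Finset.sum_congr rfl fun i _ => ?_
  rw [LinearMap.smul_apply, smul_eq_mul, hf]

end KVB
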