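import Pool.Agent.Lib.KV.B.SpecU

set_option autoImplicit false

open Set Filter Topology Metric

namespace KVB

open KP

theorem tIntB (h1 : S_MsI) (h2 : S_DnB) : S_IntB := by
  intro V _ _ _ _ _ μ _ D hD Γ _ ρ hρ χ hχ hsum Y hY hYb hYe
  have : FiniteDimensional ℝ V := FiniteDimensional.complexToReal V
  have : ProperSpace V := FiniteDimensional.proper ℂ V
  classical
  obtain ⟨_, _, hdens⟩ := h2 V D hD
  have hDm : MeasurableSet D := hD.opn.measurableSet
  have hPc : IsCompact (tsupport χ) := hχ.cpt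
  have hfin := hρ.pd (tsupport χ) hχ.sub hPc
  set G : Finset Γ := hfin.toFinset ∪ hfin.toFinset.image (fun γ => γ⁻¹) with hG
  have hGinv : ∀ γ, γ ∈ G ↔ γ⁻¹ ∈ G := by
    intro γ
    simp only [hG, Finset.mem_union, Finset.mem_image]
    constructor
    · rintro (h | ⟨a, ha, rfl⟩)
      · exact Or.inr ⟨γ, h, rfl⟩
      · rw [inv_inv]; exact Or.inl ha
    · rintro (h | ⟨a, ha, h⟩)
      · exact Or.inr ⟨γ⁻¹, h, inv_inv γ⟩
      · rw [inv_inj] at h
        rw [← h]; exact Or.inl ha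
  have hG1 : ∀ x ∈ tsupport χ, ∑ γ ∈ G, χ (ρ γ x) = 1 := by
    intro x hx
    rw [← (hsum x (hχ.sub hx)).2]
    symm
    apply finsum_eq_sum_of_support_subset
    intro γ hγ
    rw [hG, Finset.coe_union]
    refine Or.inl ?_
    rw [Finset.mem_coe, Set.Finite.mem_toFinset]
    exact ⟨ρ γ x, ⟨x, hx, rfl⟩, subset_tsupport _ hγ⟩
  have hG2 : ∀ x ∈ tsupport χ, ∑ γ ∈ G, χ (ρ γ⁻¹ x) = 1 := by
    intro x hx
    rw [← hG1 x hx]
    apply Finset.sum_equiv (Equiv.inv Γ)
    · intro γ; exact hGinv γ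
    · intro γ _; rfl
  have hdc : Continuous (fderiv ℝ χ) := hχ.smooth.continuous_fderiv one_ne_zero
  have hχc : Continuous χ := hχ.smooth.continuous
  have hb0 : ∀ y, y ∉ tsupport χ → fderiv ℝ χ y = 0 := fun y hy =>
    image_eq_zero_of_notMem_tsupport fun h => hy (tsupport_fderiv_subset ℝ h)
  -- integrability
  have hint : ∀ F : V → ℝ, MeasureTheory.AEStronglyMeasurable F (μ.restrict D) →
      (∀ x ∈ D, x ∉ tsupport χ → F x = 0) → (∃ C : ℝ, ∀ x ∈ tsupport χ, ‖F x‖ ≤ C) →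
      MeasureTheory.Integrable F (μ.restrict D) := by
    rintro F hF hF0 ⟨C, hC⟩
    have h3 : MeasureTheory.Integrable ((tsupport χ).indicator fun _ => C) (μ.restrict D) := by
      rw [MeasureTheory.integrable_indicator_iff hPc.measurableSet]
      have h4 : MeasureTheory.IntegrableOn (fun _ : V => C) (tsupport χ) μ :=
        (continuous_const.continuousOn).integrableOn_compact hPc
      exact h4.mono_measure MeasureTheory.Measure.restrict_le_self
    apply h3.mono' hF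
    rw [MeasureTheory.ae_restrict_iff' hDm]
    refine Eventually.of_forall fun x hx => ?_
    by_cases hxP : x ∈ tsupport χ
    · rw [indicator_of_mem hxP]
      exact hC x hxP
    · rw [indicator_of_notMem hxP, hF0 x hx hxP, norm_zero]
  have hdm : MeasureTheory.AEStronglyMeasurable (dens D) (μ.restrict D) :=
    hdens.aestronglyMeasurable hDm
  obtain ⟨Cd, hCd⟩ := hPc.exists_bound_of_continuousOn (hdens.mono hχ.sub)
  obtain ⟨CY, hCY⟩ := hYb (tsupport χ) hχ.sub hPc
  obtain ⟨C1, hC1⟩ := hPc.exists_bound_of_continuousOn hdc.continuousOn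
  obtain ⟨C0, hC0⟩ := hPc.exists_bound_of_continuousOn hχc.continuousOn
  have hapR : Continuous fun p : (V →L[ℝ] ℝ) × V => p.1 p.2 := isBoundedBilinearMap_apply.continuous
  have hapC : Continuous fun p : (V →L[ℂ] V) × V => p.1 p.2 := isBoundedBilinearMap_apply.continuous
  have hum : MeasureTheory.AEStronglyMeasurable (fun x => fderiv ℝ χ x (Y x)) (μ.restrict D) :=
    hapR.comp_aestronglyMeasurable ((hdc.continuousOn.aestronglyMeasurable hDm).prodMk hY)
  have hfc : ∀ γ, ContinuousOn (fun x => fderiv ℂ (ρ γ) x) D := fun γ =>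
    Pool.Agent.Lib.Osgood.continuousOn_fderiv hD.opn (hρ.dif γ)
  have hρc : ∀ γ, ContinuousOn (ρ γ) D := fun γ => (hρ.dif γ).continuousOn
  -- the first family of integrands
  have hi1 : ∀ γ, MeasureTheory.Integrable
      (fun x => fderiv ℝ χ x (Y x) * χ (ρ γ x) * dens D x) (μ.restrict D) := by
    intro γ
    apply hint
    · exact (hum.mul ((hχc.comp_continuousOn (hρc γ)).aestronglyMeasurable hDm)).mul hdm
    · intro x _ hxP
      rw [hb0 x hxP]
      simp
    · obtain ⟨C2, hC2⟩ := hPc.exists_bound_of_continuousOn (f := fun x => χ (ρ γ x))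
        ((hχc.comp_continuousOn (hρc γ)).mono hχ.sub)
      refine ⟨|C1| * |CY| * |C2| * |Cd|, fun x hx => ?_⟩
      rw [norm_mul, norm_mul]
      have e1 : ‖fderiv ℝ χ x (Y x)‖ ≤ |C1| * |CY| :=
        ((fderiv ℝ χ x).le_opNorm _).trans (mul_le_mul ((hC1 x hx).trans (le_abs_self _))
          ((hCY x hx).trans (le_abs_self _)) (norm_nonneg _) (abs_nonneg _))
      have e2 : ‖χ (ρ γ x)‖ ≤ |C2| := (hC2 x hx).trans (le_abs_self _)
      have e3 : ‖dens D x‖ ≤ |Cd| := (hCd x hx).trans (le_abs_self _)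
      exact mul_le_mul (mul_le_mul e1 e2 (norm_nonneg _)
        (mul_nonneg (abs_nonneg _) (abs_nonneg _))) e3 (norm_nonneg _)
        (mul_nonneg (mul_nonneg (abs_nonneg _) (abs_nonneg _)) (abs_nonneg _))
  -- the second family of integrands
  have hi2 : ∀ γ, MeasureTheory.Integrable
      (fun x => fderiv ℝ χ (ρ γ x) (fderiv ℂ (ρ γ) x (Y x)) * χ x * dens D x)
      (μ.restrict D) := by
    intro γ
    have hZ : MeasureTheory.AEStronglyMeasurable (fun x => fderiv ℂ (ρ γ) x (Y x))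
        (μ.restrict D) :=
      hapC.comp_aestronglyMeasurable (((hfc γ).aestronglyMeasurable hDm).prodMk hY)
    apply hint
    · exact ((hapR.comp_aestronglyMeasurable
        (((hdc.comp_continuousOn (hρc γ)).aestronglyMeasurable hDm).prodMk hZ)).mul
        (hχc.continuousOn.aestronglyMeasurable hDm)).mul hdm
    · intro x _ hxP
      rw [image_eq_zero_of_notMem_tsupport hxP]
      simp
    · obtain ⟨C2, hC2⟩ := hPc.exists_bound_of_continuousOn (f := fun x => fderiv ℝ χ (ρ γ x))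
        ((hdc.comp_continuousOn (hρc γ)).mono hχ.sub)
      obtain ⟨C3, hC3⟩ := hPc.exists_bound_of_continuousOn ((hfc γ).mono hχ.sub)
      refine ⟨|C2| * (|C3| * |CY|) * |C0| * |Cd|, fun x hx => ?_⟩
      rw [norm_mul, norm_mul]
      have e1 : ‖fderiv ℂ (ρ γ) x (Y x)‖ ≤ |C3| * |CY| :=
        ((fderiv ℂ (ρ γ) x).le_opNorm _).trans (mul_le_mul ((hC3 x hx).trans (le_abs_self _))
          ((hCY x hx).trans (le_abs_self _)) (norm_nonneg _) (abs_nonneg _))
      have e2 : ‖fderiv ℝ χ (ρ γ x) (fderiv ℂ (ρ γ) x (Y x))‖ ≤ |C2| * (|C3| * |CY|) :=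
        ((fderiv ℝ χ (ρ γ x)).le_opNorm _).trans (mul_le_mul ((hC2 x hx).trans (le_abs_self _))
          e1 (norm_nonneg _) (abs_nonneg _))
      have e3 : ‖χ x‖ ≤ |C0| := (hC0 x hx).trans (le_abs_self _)
      have e4 : ‖dens D x‖ ≤ |Cd| := (hCd x hx).trans (le_abs_self _)
      have n1 : 0 ≤ |C2| * (|C3| * |CY|) :=
        mul_nonneg (abs_nonneg _) (mul_nonneg (abs_nonneg _) (abs_nonneg _))
      exact mul_le_mul (mul_le_mul e2 e3 (norm_nonneg _) n1) e4 (norm_nonneg _)
        (mul_nonneg n1 (abs_nonneg _))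
  -- the change of variables
  have hcv : ∀ γ, ∫ x in D, fderiv ℝ χ x (Y x) * χ (ρ γ x) * dens D x ∂μ =
      ∫ x in D, fderiv ℝ χ (ρ γ⁻¹ x) (fderiv ℂ (ρ γ⁻¹) x (Y x)) * χ x * dens D x ∂μ := by
    intro γ
    have h3 := h1 V μ D hD (ρ γ⁻¹) (ρ γ) (hρ.aut γ).symm
      (fun x => fderiv ℝ χ x (Y x) * χ (ρ γ x))
    rw [← h3]
    apply MeasureTheory.setIntegral_congr_fun hDm
    intro x hx
    have h4 : ρ γ (ρ γ⁻¹ x) = x := (hρ.aut γ).gh x hx
    simp only [h4, hYe γ⁻¹ x hx]
  calc ∫ x in D, fderiv ℝ χ x (Y x) * dens D x ∂μ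
      = ∫ x in D, ∑ γ ∈ G, fderiv ℝ χ x (Y x) * χ (ρ γ x) * dens D x ∂μ := by
        apply MeasureTheory.setIntegral_congr_fun hDm
        intro x hx
        simp only
        by_cases hxP : x ∈ tsupport χ
        · rw [← Finset.sum_mul, ← Finset.mul_sum, hG1 x hxP, mul_one]
        · rw [hb0 x hxP]
          simp
    _ = ∑ γ ∈ G, ∫ x in D, fderiv ℝ χ x (Y x) * χ (ρ γ x) * dens D x ∂μ :=
        MeasureTheory.integral_finsetSum _ fun γ _ => hi1 γ
    _ = ∑ γ ∈ G, ∫ x in D, fderiv ℝ χ (ρ γ⁻¹ x) (fderiv ℂ (ρ γ⁻¹) x (Y x)) * χ x *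
        dens D x ∂μ := Finset.sum_congr rfl fun γ _ => hcv γ
    _ = ∫ x in D, ∑ γ ∈ G, fderiv ℝ χ (ρ γ⁻¹ x) (fderiv ℂ (ρ γ⁻¹) x (Y x)) * χ x *
        dens D x ∂μ := (MeasureTheory.integral_finsetSum _ fun γ _ => hi2 γ⁻¹).symm
    _ = ∫ x in D, (0 : ℝ) ∂μ := by
        apply MeasureTheory.setIntegral_congr_fun hDm
        intro x hx
        simp only
        by_cases hx0 : χ x = 0
        · rw [hx0]
          simp
        · have hxP : x ∈ tsupport χ := subset_tsupport _ hx0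
          have hev : (fun y => ∑ γ ∈ G, χ (ρ γ⁻¹ y)) =ᶠ[𝓝 x] fun _ => (1 : ℝ) := by
            filter_upwards [hχc.continuousAt.eventually_ne hx0] with y hy
            exact hG2 y (subset_tsupport _ hy)
          have hd1 : HasFDerivAt (fun y => ∑ γ ∈ G, χ (ρ γ⁻¹ y))
              (∑ γ ∈ G, (fderiv ℝ χ (ρ γ⁻¹ x)).comp
                ((fderiv ℂ (ρ γ⁻¹) x).restrictScalars ℝ)) x := by
            apply HasFDerivAt.fun_sum
            intro γ _
            have e1 : HasFDerivAt χ (fderiv ℝ χ (ρ γ⁻¹ x)) (ρ γ⁻¹ x) :=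
              (hχ.smooth.differentiable one_ne_zero _).hasFDerivAt
            have e2 : HasFDerivAt (ρ γ⁻¹) (fderiv ℂ (ρ γ⁻¹) x) x :=
              ((hρ.dif γ⁻¹).differentiableAt (hD.opn.mem_nhds hx)).hasFDerivAt
            exact e1.comp x (e2.restrictScalars ℝ)
          have hd2 : HasFDerivAt (fun y => ∑ γ ∈ G, χ (ρ γ⁻¹ y)) (0 : V →L[ℝ] ℝ) x :=
            (hasFDerivAt_const (1 : ℝ) x).congr_of_eventuallyEq hev
          have hd3 := hd1.unique hd2
          have hd4 := congrArg (fun L : V →L[ℝ] ℝ => L (Y x)) hd3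
          simp only [ContinuousLinearMap.sum_apply, ContinuousLinearMap.comp_apply,
            ContinuousLinearMap.coe_restrictScalars', ContinuousLinearMap.zero_apply] at hd4
          rw [← Finset.sum_mul, ← Finset.sum_mul, hd4]
          simp
    _ = 0 := by simp

end KVB
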