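import Pool.Agent.Lib.KV.B.SpecU

/-!
# KV (MP_64edc4_ag), part B, block U, module MsI: invariance of the measure with the density
-/

set_option autoImplicit false

open Set Filter Topology Metric MeasureTheory

namespace KVB

open KP

theorem tMsI (h1 : S_DnB) : S_MsI := by
  intro V _ _ _ _ _ μ _ D hD g h hg u
  obtain ⟨_, h2, _⟩ := h1 V D hD
  have hm : MeasurableSet D := hD.opn.measurableSet
  have hd : ∀ x ∈ D, HasFDerivWithinAt g ((fderiv ℂ g x).restrictScalars ℝ) D x := by
    intro x hx
    exact ((hg.dg.differentiableAt (hD.opn.mem_nhds hx)).hasFDerivAt.restrictScalars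
      ℝ).hasFDerivWithinAt
  have hi : InjOn g D := by
    intro x hx y hy hxy
    rw [← hg.hg x hx, ← hg.hg y hy, hxy]
  have himg : g '' D = D := by
    apply Subset.antisymm
    · rintro _ ⟨x, hx, rfl⟩
      exact hg.mg hx
    · intro y hy
      exact ⟨h y, hg.mh hy, hg.gh y hy⟩
  have key := integral_image_eq_integral_abs_det_fderiv_smul μ hm hd hi
    (fun y => u y * dens D y)
  rw [himg] at key
  rw [key]
  refine setIntegral_congr_fun hm fun x hx => ?_
  have h3 := h2 g h hg x hx
  show u (g x) * dens D x =
    |((fderiv ℂ g x).restrictScalars ℝ).det| • (u (g x) * dens D (g x))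
  rw [← h3]
  unfold rdet
  rw [smul_eq_mul]
  ring

end KVB
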