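import Pool.Agent.Lib.KV.B.SpecU

set_option autoImplicit false

open Set Filter Topology Metric MeasureTheory

namespace KVB

open KP

namespace NrmAux

variable {V : Type} [NormedAddCommGroup V] [NormedSpace ℂ V] {d : ℕ}

/-- The weight. -/
noncomputable def wt (D : Set V) (r0 : ℝ) (x y : V) : ℝ := max 0 (r0 - cd D x y)

/-- The terms. -/
noncomputable def tm (D : Set V) (r0 : ℝ) (X : Fin d → V → V) (x : V) (ξ : Fin d → ℝ) (y : V) : ℝ :=
  cn D y (ev X ξ y) * wt D r0 x y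

/-- The norm. -/
noncomputable def nm (D : Set V) (r0 : ℝ) (X : Fin d → V → V) (x : V) (ξ : Fin d → ℝ) : ℝ :=
  sSup (tm D r0 X x ξ '' D)

theorem ev_add (X : Fin d → V → V) (ξ η : Fin d → ℝ) (y : V) :
    ev X (ξ + η) y = ev X ξ y + ev X η y := by
  simp only [ev, ← Finset.sum_add_distrib]
  refine Finset.sum_congr rfl fun a _ => ?_
  rw [Pi.add_apply, Complex.ofReal_add, add_smul]

theorem ev_smul (X : Fin d → V → V) (t : ℝ) (ξ : Fin d → ℝ) (y : V) :
    ev X (t • ξ) y = (t : ℂ) • ev X ξ y := by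
  simp only [ev, Finset.smul_sum]
  refine Finset.sum_congr rfl fun a _ => ?_
  rw [Pi.smul_apply, smul_eq_mul, Complex.ofReal_mul, mul_smul]

theorem ev_dif {D : Set V} {X : Fin d → V → V} (h : ∀ a, DifferentiableOn ℂ (X a) D)
    (ξ : Fin d → ℝ) : DifferentiableOn ℂ (ev X ξ) D := by
  have : DifferentiableOn ℂ (fun x => ∑ a, (ξ a : ℂ) • X a x) D :=
    DifferentiableOn.fun_sum fun a _ => (h a).const_smul _
  exact this

theorem wt_nonneg (D : Set V) (r0 : ℝ) (x y : V) : 0 ≤ wt D r0 x y := le_max_left _ _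

/-- The bound of `cn`. -/
theorem cn_bound (h2 : S_CnB) {D : Set V} (hD : IsOpen D) {X : Fin d → V → V}
    (hX : ∀ a, DifferentiableOn ℂ (X a) D) {Q : Set V} (hQ : Q ⊆ D) (hQc : IsCompact Q) :
    ∃ C, 0 ≤ C ∧ ∀ y ∈ Q, ∀ ξ : Fin d → ℝ, cn D y (ev X ξ y) ≤ C * ‖ξ‖ := by
  obtain ⟨hnn, -, hadd, hsm, -, hcont⟩ := h2 V D hD
  have hg : ContinuousOn (fun y => ∑ a, cn D y (X a y)) Q := by
    refine continuousOn_finsetSum _ fun a _ => ?_
    have h3 : ContinuousOn (fun y => ((y, X a y) : V × V)) Q :=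
      continuousOn_id.prodMk ((hX a).continuousOn.mono hQ)
    exact hcont.comp h3 (fun y hy => ⟨hQ hy, mem_univ _⟩)
  obtain ⟨C, hC⟩ := hQc.bddAbove_image hg
  refine ⟨max C 0, le_max_right _ _, fun y hy ξ => ?_⟩
  have hz : cn D y 0 = 0 := by
    have := hsm y (hQ hy) 0 0
    rwa [zero_smul, norm_zero, zero_mul] at this
  have hs : ∀ s : Finset (Fin d), cn D y (∑ a ∈ s, (ξ a : ℂ) • X a y) ≤
      ∑ a ∈ s, cn D y ((ξ a : ℂ) • X a y) := by
    intro s
    induction s using Finset.induction_on with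
    | empty => simp [hz]
    | insert a s ha ih =>
      rw [Finset.sum_insert ha, Finset.sum_insert ha]
      exact (hadd y (hQ hy) _ _).trans (by linarith)
  calc cn D y (ev X ξ y) ≤ ∑ a, cn D y ((ξ a : ℂ) • X a y) := hs Finset.univ
    _ ≤ ∑ a, ‖ξ‖ * cn D y (X a y) := by
        refine Finset.sum_le_sum fun a _ => ?_
        rw [hsm y (hQ hy)]
        refine mul_le_mul_of_nonneg_right ?_ (hnn y (hQ hy) _).1
        rw [Complex.norm_real]
        exact norm_le_pi_norm ξ a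
    _ = ‖ξ‖ * ∑ a, cn D y (X a y) := by rw [Finset.mul_sum]
    _ ≤ max C 0 * ‖ξ‖ := by
        rw [mul_comm]
        exact mul_le_mul_of_nonneg_right ((hC ⟨y, hy, rfl⟩).trans (le_max_left _ _))
          (norm_nonneg _)

/-- The bounds on a compact set. -/
theorem tm_bound (h1 : S_CdB) (h2 : S_CnB) {D : Set V} (hD : IsOpen D) {r0 : ℝ}
    (hbc : ∀ Q ⊆ D, IsCompact Q → ∃ Q' ⊆ D, IsCompact Q' ∧
      ∀ x ∈ Q, ∀ y ∈ D, cd D x y ≤ r0 → y ∈ Q')
    {X : Fin d → V → V} (hX : ∀ a, DifferentiableOn ℂ (X a) D) {Q : Set V} (hQ : Q ⊆ D)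
    (hQc : IsCompact Q) :
    ∃ C, 0 ≤ C ∧ (∀ x ∈ Q, ∀ y ∈ D, ∀ ξ : Fin d → ℝ,
        0 ≤ tm D r0 X x ξ y ∧ tm D r0 X x ξ y ≤ C * ‖ξ‖ * wt D r0 x y) ∧
      ∀ x ∈ Q, ∀ x' ∈ Q, ∀ y ∈ D, ∀ ξ : Fin d → ℝ,
        tm D r0 X x ξ y ≤ tm D r0 X x' ξ y + C * ‖ξ‖ * cd D x x' := by
  obtain ⟨hnn, -, -, -, -, -⟩ := h2 V D hD
  obtain ⟨hc1, hc2, -, -, -⟩ := h1 V D hD
  obtain ⟨Q', hQ', hQ'c, hb⟩ := hbc Q hQ hQc
  obtain ⟨C, hC0, hC⟩ := cn_bound h2 hD hX hQ' hQ'c
  have hw0 : ∀ x ∈ Q, ∀ y ∈ D, y ∉ Q' → wt D r0 x y = 0 := by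
    intro x hx y hy hyQ
    have : ¬ cd D x y ≤ r0 := fun h => hyQ (hb x hx y hy h)
    rw [wt, max_eq_left]
    linarith [not_le.1 this]
  refine ⟨C, hC0, fun x hx y hy ξ => ⟨mul_nonneg (hnn y hy _).1 (wt_nonneg _ _ _ _), ?_⟩,
    fun x hx x' hx' y hy ξ => ?_⟩
  · by_cases hyQ : y ∈ Q'
    · exact mul_le_mul_of_nonneg_right (hC y hyQ ξ) (wt_nonneg _ _ _ _)
    · rw [tm, hw0 x hx y hy hyQ, mul_zero, mul_zero]
  · have hcd0 : 0 ≤ cd D x x' := (hc1 x (hQ hx) x' (hQ hx')).1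
    by_cases hyQ : y ∈ Q'
    · have hw : wt D r0 x y ≤ wt D r0 x' y + cd D x x' := by
        have h5 := hc2 x' (hQ hx') x (hQ hx) y hy
        rw [(hc1 x' (hQ hx') x (hQ hx)).2.2.1] at h5
        refine max_le ?_ ?_
        · linarith [wt_nonneg D r0 x' y]
        · have : r0 - cd D x' y ≤ wt D r0 x' y := le_max_right _ _
          linarith
      have h6 : tm D r0 X x ξ y ≤ cn D y (ev X ξ y) * (wt D r0 x' y + cd D x x') :=
        mul_le_mul_of_nonneg_left hw (hnn y hy _).1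
      have h7 : cn D y (ev X ξ y) * cd D x x' ≤ C * ‖ξ‖ * cd D x x' :=
        mul_le_mul_of_nonneg_right (hC y hyQ ξ) hcd0
      have h8 : cn D y (ev X ξ y) * (wt D r0 x' y + cd D x x') =
        tm D r0 X x' ξ y + cn D y (ev X ξ y) * cd D x x' := by rw [tm]; ring
      linarith
    · rw [tm, tm, hw0 x hx y hy hyQ, hw0 x' hx' y hy hyQ, mul_zero, zero_add]
      positivity

end NrmAux

open NrmAux

open scoped Pointwise in
theorem tNrm (h1 : S_CdB) (h2 : S_CnB) (h3 : S_CnP) : S_Nrm := by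
  intro V _ _ _ D hH d X hF
  have : ProperSpace V := FiniteDimensional.proper ℂ V
  have : CompleteSpace V := FiniteDimensional.complete ℂ V
  obtain ⟨r0, hr0, hbc⟩ := hH.bc
  have hD := hH.opn
  have hX : ∀ a, DifferentiableOn ℂ (X a) D := fun a => (hF.cpl a).1
  obtain ⟨hnn, hcnr, hadd, hsm, hinv, hcont⟩ := h2 V D hD
  obtain ⟨hc1, hc2, hc3, hc4, hc5⟩ := h1 V D hD
  have hne : ∀ x ξ, (tm D r0 X x ξ '' D).Nonempty := fun x ξ => hH.nem.image _
  have hwr : ∀ x ∈ D, ∀ y ∈ D, wt D r0 x y ≤ r0 := by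
    intro x hx y hy
    refine max_le hr0.le ?_
    linarith [(hc1 x hx y hy).1]
  have hbd : ∀ x ∈ D, ∀ ξ, BddAbove (tm D r0 X x ξ '' D) := by
    intro x hx ξ
    obtain ⟨C, hC0, hC, -⟩ := tm_bound h1 h2 hD hbc hX (singleton_subset_iff.2 hx)
      isCompact_singleton
    refine ⟨C * ‖ξ‖ * r0, ?_⟩
    rintro _ ⟨y, hy, rfl⟩
    exact (hC x rfl y hy ξ).2.trans
      (mul_le_mul_of_nonneg_left (hwr x hx y hy) (by positivity))
  have hle : ∀ x ∈ D, ∀ ξ, ∀ y ∈ D, tm D r0 X x ξ y ≤ nm D r0 X x ξ := fun x hx ξ y hy =>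
    le_csSup (hbd x hx ξ) ⟨y, hy, rfl⟩
  have hsub : ∀ x ∈ D, ∀ ξ η, nm D r0 X x (ξ + η) ≤ nm D r0 X x ξ + nm D r0 X x η := by
    intro x hx ξ η
    refine csSup_le (hne x _) ?_
    rintro _ ⟨y, hy, rfl⟩
    have h5 : tm D r0 X x (ξ + η) y ≤ tm D r0 X x ξ y + tm D r0 X x η y := by
      rw [tm, tm, tm, ev_add, ← add_mul]
      exact mul_le_mul_of_nonneg_right (hadd y hy _ _) (wt_nonneg _ _ _ _)
    linarith [hle x hx ξ y hy, hle x hx η y hy]
  have hsmul : ∀ x ∈ D, ∀ (t : ℝ) ξ, nm D r0 X x (t • ξ) = |t| * nm D r0 X x ξ := by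
    intro x hx t ξ
    have h5 : tm D r0 X x (t • ξ) '' D = |t| • (tm D r0 X x ξ '' D) := by
      rw [← image_smul, image_image]
      refine image_congr fun y hy => ?_
      rw [tm, tm, ev_smul, hsm y hy, Complex.norm_real, Real.norm_eq_abs, smul_eq_mul, mul_assoc]
    rw [nm, h5, Real.sSup_smul_of_nonneg (abs_nonneg t), smul_eq_mul]
    rfl
  refine ⟨nm D r0 X, ?_, fun x hx => ⟨hsub x hx, hsmul x hx, ?_⟩, ?_⟩
  · -- continuity
    rintro ⟨x, ξ⟩ ⟨hx, -⟩
    obtain ⟨r, hr, hrD⟩ := Metric.isOpen_iff.1 hD x hx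
    have hQD : closedBall x (r / 2) ⊆ D := (closedBall_subset_ball (half_lt_self hr)).trans hrD
    obtain ⟨C, hC0, hC, hC'⟩ := tm_bound h1 h2 hD hbc hX hQD (isCompact_closedBall x (r / 2))
    -- bound of the norm
    have hb1 : ∀ z ∈ closedBall x (r / 2), ∀ η, nm D r0 X z η ≤ C * ‖η‖ * r0 := by
      intro z hz η
      refine csSup_le (hne z η) ?_
      rintro _ ⟨y, hy, rfl⟩
      exact (hC z hz y hy η).2.trans
        (mul_le_mul_of_nonneg_left (hwr z (hQD hz) y hy) (by positivity))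
    have hb2 : ∀ z ∈ closedBall x (r / 2), ∀ η η',
        nm D r0 X z η - nm D r0 X z η' ≤ C * ‖η - η'‖ * r0 := by
      intro z hz η η'
      have h5 := hsub z (hQD hz) (η - η') η'
      rw [sub_add_cancel] at h5
      linarith [hb1 z hz (η - η')]
    have hb3 : ∀ z ∈ closedBall x (r / 2), ∀ z' ∈ closedBall x (r / 2), ∀ η,
        nm D r0 X z η - nm D r0 X z' η ≤ C * ‖η‖ * cd D z z' := by
      intro z hz z' hz' η
      have : nm D r0 X z η ≤ nm D r0 X z' η + C * ‖η‖ * cd D z z' := by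
        refine csSup_le (hne z η) ?_
        rintro _ ⟨y, hy, rfl⟩
        exact (hC' z hz z' hz' y hy η).trans (by linarith [hle z' (hQD hz') η y hy])
      linarith
    have hxm : x ∈ closedBall x (r / 2) := mem_closedBall_self (by positivity)
    have hxb : x ∈ ball x (r / 2) := mem_ball_self (by positivity)
    have hb4 : ∀ z ∈ ball x (r / 2), ∀ η,
        |nm D r0 X z η - nm D r0 X x ξ| ≤ C * ‖η - ξ‖ * r0 + C * ‖ξ‖ * (2 / r * ‖z - x‖) := by
      intro z hz η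
      have hzm := ball_subset_closedBall hz
      have h5 := hb2 z hzm η ξ
      have h6 := hb2 z hzm ξ η
      rw [norm_sub_rev] at h6
      have h7 := hb3 z hzm x hxm ξ
      have h8 := hb3 x hxm z hzm ξ
      have h9 : C * ‖ξ‖ * cd D z x ≤ C * ‖ξ‖ * (2 / r * ‖z - x‖) :=
        mul_le_mul_of_nonneg_left (hc4 x r hr hrD z hz x hxb) (by positivity)
      have h10 : C * ‖ξ‖ * cd D x z ≤ C * ‖ξ‖ * (2 / r * ‖z - x‖) := by
        refine mul_le_mul_of_nonneg_left ?_ (by positivity)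
        rw [norm_sub_rev]
        exact hc4 x r hr hrD x hxb z hz
      rw [abs_le]
      constructor <;> linarith
    refine ContinuousAt.continuousWithinAt ?_
    change Tendsto (fun p : V × (Fin d → ℝ) => nm D r0 X p.1 p.2) (𝓝 (x, ξ)) (𝓝 (nm D r0 X x ξ))
    rw [tendsto_iff_norm_sub_tendsto_zero]
    refine squeeze_zero' (Eventually.of_forall fun p => norm_nonneg _)
      (g := fun p : V × (Fin d → ℝ) =>
        C * ‖p.2 - ξ‖ * r0 + C * ‖ξ‖ * (2 / r * ‖p.1 - x‖)) ?_ ?_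
    · have h5 : ∀ᶠ p : V × (Fin d → ℝ) in 𝓝 (x, ξ), p.1 ∈ ball x (r / 2) :=
        (continuous_fst.tendsto (x, ξ)).eventually (ball_mem_nhds x (by positivity))
      filter_upwards [h5] with p hp
      exact hb4 p.1 hp p.2
    · have h5 : Continuous (fun p : V × (Fin d → ℝ) =>
          C * ‖p.2 - ξ‖ * r0 + C * ‖ξ‖ * (2 / r * ‖p.1 - x‖)) := by fun_prop
      have h6 := h5.tendsto (x, ξ)
      simpa using h6
  · -- positivity
    intro ξ hξ
    by_contra hneg
    refine hξ (hF.ind ξ ?_)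
    obtain ⟨r, hr, hrD⟩ := Metric.isOpen_iff.1 hD x hx
    have hxb : x ∈ ball x (r / 2) := mem_ball_self (by positivity)
    have hev : ev X ξ =ᶠ[𝓝 x] 0 := by
      have hmin : 0 < min (r / 2) (r0 * r / 4) := by positivity
      filter_upwards [ball_mem_nhds x hmin] with y hy
      have hy1 : y ∈ ball x (r / 2) := ball_subset_ball (min_le_left _ _) hy
      have hyD : y ∈ D := hrD (ball_subset_ball (half_le_self hr.le) hy1)
      have hy2 : ‖x - y‖ < r0 * r / 4 := by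
        have := (mem_ball.1 hy).trans_le (min_le_right _ _)
        rwa [dist_comm, dist_eq_norm] at this
      have hcdlt : cd D x y < r0 := by
        have h5 := hc4 x r hr hrD x hxb y hy1
        have h6 : 2 / r * ‖x - y‖ ≤ 2 / r * (r0 * r / 4) :=
          mul_le_mul_of_nonneg_left hy2.le (by positivity)
        have h7 : 2 / r * (r0 * r / 4) = r0 / 2 := by field_simp; norm_num
        linarith
      have hw : 0 < wt D r0 x y := by
        rw [wt]
        exact lt_max_of_lt_right (by linarith)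
      have h8 : tm D r0 X x ξ y ≤ 0 := (hle x hx ξ y hyD).trans (not_lt.1 hneg)
      have h9 : cn D y (ev X ξ y) ≤ 0 := by
        by_contra h
        exact absurd h8 (not_le.2 (mul_pos (not_le.1 h) hw))
      obtain ⟨c, hc0, hc⟩ := h3 V D hH {y} (singleton_subset_iff.2 hyD) isCompact_singleton
      have h10 := hc y rfl (ev X ξ y)
      have h11 : ‖ev X ξ y‖ ≤ 0 := by
        by_contra h
        have := mul_pos hc0 (not_le.1 h)
        linarith
      exact norm_le_zero_iff.1 h11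
    have han := Pool.Agent.Lib.Osgood.analyticOnNhd hD (ev_dif hX ξ)
    intro y hy
    exact han.eqOn_zero_of_preconnected_of_eventuallyEq_zero hH.conn hx hev hy
  · -- invariance
    intro g h M hg hM x hx ξ
    have hcdg : ∀ y ∈ D, cd D (g x) (g y) = cd D x y := by
      intro y hy
      refine le_antisymm (hc3 g hg.dg hg.mg x hx y hy) ?_
      have := hc3 h hg.dh hg.mh (g x) (hg.mg hx) (g y) (hg.mg hy)
      rwa [hg.hg x hx, hg.hg y hy] at this
    have htm : ∀ y ∈ D, tm D r0 X (g x) (M.mulVec ξ) (g y) = tm D r0 X x ξ y := by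
      intro y hy
      rw [tm, tm, wt, wt, hcdg y hy, ← hM ξ y hy, hinv g h hg y hy]
    have hset : tm D r0 X (g x) (M.mulVec ξ) '' D = tm D r0 X x ξ '' D := by
      ext t
      constructor
      · rintro ⟨y, hy, rfl⟩
        refine ⟨h y, hg.mh hy, ?_⟩
        rw [← htm (h y) (hg.mh hy), hg.gh y hy]
      · rintro ⟨y, hy, rfl⟩
        exact ⟨g y, hg.mg hy, htm y hy⟩
    rw [nm, nm, hset]

end KVB
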