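import Pool.Agent.Lib.KV.B.SpecU

/-!
# KV (MP_64edc4_ag), part B, block U: representation of the automorphisms on the Lie algebra
-/

set_option autoImplicit false

open Set Filter Topology Metric

namespace KVB

open KP

namespace Rep1Aux

variable {V : Type} [NormedAddCommGroup V] [NormedSpace ℂ V]

theorem ev_sub {d : ℕ} (X : Fin d → V → V) (ξ η : Fin d → ℝ) (x : V) :
    ev X (ξ - η) x = ev X ξ x - ev X η x := by
  simp only [ev, Pi.sub_apply, Complex.ofReal_sub, sub_smul, Finset.sum_sub_distrib]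

/-- Two coordinate vectors of the same field on `D` agree. -/
theorem ev_inj {d : ℕ} {D : Set V} {X : Fin d → V → V} (hX : Fam D X) {ξ η : Fin d → ℝ}
    (h : ∀ x ∈ D, ev X ξ x = ev X η x) : ξ = η := by
  have := hX.ind (ξ - η) (fun x hx => by rw [ev_sub, h x hx, sub_self])
  exact sub_eq_zero.1 this

theorem comp_rep {d : ℕ} {D : Set V} (hD : IsOpen D) {X : Fin d → V → V} {g h g' h' : V → V}
    {M M' : Matrix (Fin d) (Fin d) ℝ} (hg : Aut2 D g h) (hg' : Aut2 D g' h')
    (hM : Rep D X g M) (hM' : Rep D X g' M') : Rep D X (fun x => g (g' x)) (M * M') := by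
  intro ξ x hx
  have h1 : DifferentiableAt ℂ g' x := (hg'.dg x hx).differentiableAt (hD.mem_nhds hx)
  have h2 : DifferentiableAt ℂ g (g' x) :=
    (hg.dg _ (hg'.mg hx)).differentiableAt (hD.mem_nhds (hg'.mg hx))
  have h3 : fderiv ℂ (fun x => g (g' x)) x = (fderiv ℂ g (g' x)).comp (fderiv ℂ g' x) :=
    fderiv_comp x h2 h1
  rw [h3, ContinuousLinearMap.comp_apply, hM' ξ x hx, hM _ _ (hg'.mg hx), Matrix.mulVec_mulVec]

theorem exists_rep {d : ℕ} {D : Set V} {X : Fin d → V → V} {g h : V → V} (hg : Aut2 D g h)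
    (hm : ∀ a, ∃ ξ : Fin d → ℝ, ∀ x ∈ D, Ad g h (X a) x = ev X ξ x) : ∃ M, Rep D X g M := by
  choose m hm using hm
  refine ⟨fun e a => m a e, fun ξ x hx => ?_⟩
  have h1 : ∀ a, fderiv ℂ g x (X a x) = ev X (m a) (g x) := by
    intro a
    have h2 := hm a (g x) (hg.mg hx)
    simp only [Ad] at h2
    rw [hg.hg x hx] at h2
    exact h2
  have h3 : fderiv ℂ g x (ev X ξ x) = ∑ a, (ξ a : ℂ) • ev X (m a) (g x) := by
    simp only [ev, map_sum, map_smul]
    refine Finset.sum_congr rfl fun a _ => ?_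
    rw [h1 a]
    rfl
  rw [h3]
  simp only [ev, Finset.smul_sum, smul_smul]
  rw [Finset.sum_comm]
  refine Finset.sum_congr rfl fun e _ => ?_
  rw [← Finset.sum_smul]
  congr 1
  simp only [Matrix.mulVec, dotProduct, Complex.ofReal_sum, Complex.ofReal_mul]
  refine Finset.sum_congr rfl fun a _ => ?_
  rw [mul_comm]

end Rep1Aux

open Rep1Aux in
theorem tRep1 (h1 : S_AdC) : S_Rep1 := by
  intro V _ _ _ D hD d X hX
  refine ⟨?_, ?_, ?_, ?_⟩
  · intro g h hg
    exact exists_rep hg (fun a => hX.span _ (h1 V D hD g h (X a) hg (hX.cpl a)))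
  · intro g h hg M M' hM hM'
    have h2 : ∀ ξ : Fin d → ℝ, M.mulVec ξ = M'.mulVec ξ := by
      intro ξ
      refine ev_inj hX (fun y hy => ?_)
      have h3 := hM ξ (h y) (hg.mh hy)
      have h4 := hM' ξ (h y) (hg.mh hy)
      rw [hg.gh y hy] at h3 h4
      rw [← h3, ← h4]
    exact Matrix.ext_of_mulVec_single (fun i => h2 _)
  · intro g h g' h' M M' hg hg' hM hM'
    exact comp_rep hD hg hg' hM hM'
  · intro g h M M' hg hM hM'
    have hc := comp_rep hD hg hg.symm hM hM'
    have h2 : ∀ ξ : Fin d → ℝ, (M * M').mulVec ξ = ξ := by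
      intro ξ
      refine ev_inj hX (fun x hx => ?_)
      have h3 := hc ξ x hx
      have h4 : (fun x => g (h x)) =ᶠ[𝓝 x] (fun x => x) := by
        filter_upwards [hD.mem_nhds hx] with y hy
        exact hg.gh y hy
      have h5 : fderiv ℂ (fun x => g (h x)) x = ContinuousLinearMap.id ℂ V := by
        rw [h4.fderiv_eq]
        exact fderiv_id'
      rw [h5] at h3
      have h6 : ev X ((M * M').mulVec ξ) (g (h x)) = ev X ξ x := h3.symm
      rw [hg.gh x hx] at h6
      exact h6
    refine Matrix.ext_of_mulVec_single (fun i => ?_)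
    rw [h2, Matrix.one_mulVec]

end KVB
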