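import Pool.Agent.Lib.KV.B.SpecU

/-!
# KV (MP_64edc4_ag), part B, block U, module Rep2: derivative of the representation along a flow
-/

set_option autoImplicit false

open Set Filter Topology Metric

namespace KVB

open KP

namespace Rep2Aux

variable {V : Type} [NormedAddCommGroup V] [NormedSpace ℂ V]

theorem ev_neg {d : ℕ} (X : Fin d → V → V) (ξ : Fin d → ℝ) (x : V) :
    ev X (-ξ) x = -(ev X ξ x) := by
  simp [ev]

theorem ev_single {d : ℕ} (X : Fin d → V → V) (b : Fin d) (x : V) :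
    ev X (Pi.single b 1) x = X b x := by
  unfold ev
  rw [Finset.sum_eq_single b]
  · simp
  · intro a _ hab
    simp [Pi.single_eq_of_ne hab]
  · intro h
    exact absurd (Finset.mem_univ b) h

theorem fderiv_ev {D : Set V} (hD : IsOpen D) {d : ℕ} {X : Fin d → V → V}
    (hX : ∀ a, DifferentiableOn ℂ (X a) D) (ξ : Fin d → ℝ) {x : V} (hx : x ∈ D) (v : V) :
    fderiv ℂ (ev X ξ) x v = ∑ a, (ξ a : ℂ) • fderiv ℂ (X a) x v := by
  have h : HasFDerivAt (ev X ξ) (∑ a, (ξ a : ℂ) • fderiv ℂ (X a) x) x := by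
    have h1 : ∀ a ∈ (Finset.univ : Finset (Fin d)),
        HasFDerivAt (fun x => (ξ a : ℂ) • X a x) ((ξ a : ℂ) • fderiv ℂ (X a) x) x := by
      intro a _
      exact (((hX a).differentiableAt (hD.mem_nhds hx)).hasFDerivAt).const_smul (ξ a : ℂ)
    exact HasFDerivAt.fun_sum h1
  rw [h.fderiv]
  simp

theorem diff_ev {D : Set V} {d : ℕ} {X : Fin d → V → V}
    (hX : ∀ a, DifferentiableOn ℂ (X a) D) (ξ : Fin d → ℝ) : DifferentiableOn ℂ (ev X ξ) D := by
  have h1 : ∀ a ∈ (Finset.univ : Finset (Fin d)),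
      DifferentiableOn ℂ (fun x => (ξ a : ℂ) • X a x) D := by
    intro a _
    exact (hX a).const_smul (ξ a : ℂ)
  exact DifferentiableOn.fun_sum h1

theorem br_ev {D : Set V} (hD : IsOpen D) {d : ℕ} {X : Fin d → V → V}
    (hX : ∀ a, DifferentiableOn ℂ (X a) D) {c : Fin d → Fin d → Fin d → ℝ} (hc : SC D X c)
    (ξ : Fin d → ℝ) (b : Fin d) {x : V} (hx : x ∈ D) :
    Br (ev X ξ) (X b) x = ev X (fun e => adm c ξ e b) x := by
  unfold Br
  rw [fderiv_ev hD hX ξ hx]
  have h1 : fderiv ℂ (X b) x (ev X ξ x) = ∑ a, (ξ a : ℂ) • fderiv ℂ (X b) x (X a x) := by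
    unfold ev
    rw [map_sum]
    refine Finset.sum_congr rfl fun a _ => ?_
    rw [map_smul]
  rw [h1, ← Finset.sum_sub_distrib]
  have h2 : ∀ a, (ξ a : ℂ) • fderiv ℂ (X b) x (X a x) - (ξ a : ℂ) • fderiv ℂ (X a) x (X b x) =
      ∑ e, ((ξ a * c a b e : ℝ) : ℂ) • X e x := by
    intro a
    rw [← smul_sub]
    have h3 : fderiv ℂ (X b) x (X a x) - fderiv ℂ (X a) x (X b x) = ev X (c a b) x := hc a b x hx
    rw [h3]
    unfold ev
    rw [Finset.smul_sum]
    refine Finset.sum_congr rfl fun e _ => ?_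
    rw [smul_smul]
    push_cast
    rfl
  rw [Finset.sum_congr rfl fun a _ => h2 a, Finset.sum_comm]
  unfold ev
  refine Finset.sum_congr rfl fun e _ => ?_
  rw [← Finset.sum_smul]
  unfold adm
  push_cast
  rfl

end Rep2Aux

open Rep2Aux in
theorem tRep2 (h1 : S_Evl) (h2 : S_AdD) (h3 : S_Rep1) : S_Rep2 := by
  intro V _ _ _ D hD d X hF c hc ξ φ hφ
  obtain ⟨hR, hU, -, -⟩ := h3 V D hD.opn d X hF
  have hX : ∀ a, DifferentiableOn ℂ (X a) D := fun a => (hF.cpl a).1
  choose M hM using fun s => hR (φ s) (φ (-s)) (hφ.aut s)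
  obtain ⟨p, pts, l, κ, hpts, hE⟩ := h1 V D d X hF.ind
  refine ⟨M, hM, ?_, ?_⟩
  · refine hU (φ 0) (φ (-0)) (hφ.aut 0) (M 0) 1 (hM 0) ?_
    intro η x hx
    have h4 : φ 0 =ᶠ[𝓝 x] id := by
      filter_upwards [hD.opn.mem_nhds hx] with y hy
      exact hφ.zero y hy
    rw [h4.fderiv_eq, fderiv_id, Matrix.one_mulVec, hφ.zero x hx]
    rfl
  · intro e b
    have hAd : ∀ s : ℝ, ∀ y ∈ D,
        ev X ((M s).mulVec (Pi.single b 1)) y = Ad (φ s) (φ (-s)) (X b) y := by
      intro s y hy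
      have h5 := hM s (Pi.single b 1) (φ (-s) y) (hφ.maps (-s) hy)
      rw [(hφ.aut s).gh y hy, ev_single] at h5
      exact h5.symm
    have hM1 : ∀ s : ℝ, M s e b = ∑ i, κ e i * l i (Ad (φ s) (φ (-s)) (X b) (pts i)) := by
      intro s
      have h6 := hE ((M s).mulVec (Pi.single b 1)) e
      rw [Matrix.mulVec_single_one] at h6
      have h7 : (M s).col b e = M s e b := rfl
      rw [h7] at h6
      rw [h6]
      refine Finset.sum_congr rfl fun i _ => ?_
      rw [← hAd s (pts i) (hpts i), Matrix.mulVec_single_one]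
    have hd : HasDerivAt (fun s => ∑ i, κ e i * l i (Ad (φ s) (φ (-s)) (X b) (pts i)))
        (∑ i, κ e i * l i (-(Br (ev X ξ) (X b) (pts i)))) 0 := by
      refine HasDerivAt.fun_sum fun i _ => ?_
      have h8 := h2 V D hD (ev X ξ) (X b) φ (diff_ev hX ξ) (hX b) hφ (pts i) (hpts i)
      have h9 := (l i).hasFDerivAt.comp_hasDerivAt (0 : ℝ) h8
      exact h9.const_mul (κ e i)
    have hv : (∑ i, κ e i * l i (-(Br (ev X ξ) (X b) (pts i)))) = -(adm c ξ e b) := by
      have h10 := hE (-(fun e => adm c ξ e b)) e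
      rw [Pi.neg_apply] at h10
      rw [h10]
      refine Finset.sum_congr rfl fun i _ => ?_
      rw [br_ev hD.opn hX hc ξ b (hpts i), ev_neg]
    rw [← hv]
    exact hd.congr_of_eventuallyEq (Eventually.of_forall hM1)

end KVB
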