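import Pool.Agent.Lib.KV.B.SpecU

/-!
# KV (MP_64edc4_ag), part B, block U, module Str: the complete fields form a Lie algebra
-/

set_option autoImplicit false

open Set Filter Topology Metric

namespace KVB

open KP

theorem tStr (h1 : S_Evl) (h2 : S_AdC) (h3 : S_AdD) : S_Str := by
  intro V _ _ _ D hD d X hX
  have key : ∀ a b : Fin d, ∃ c : Fin d → ℝ, ∀ x ∈ D, Br (X a) (X b) x = ev X c x := by
    intro a b
    obtain ⟨ha, φ, hφ⟩ := hX.cpl a
    have h4 : ∀ s : ℝ, ∃ ξ : Fin d → ℝ, ∀ x ∈ D, Ad (φ s) (φ (-s)) (X b) x = ev X ξ x :=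
      fun s => hX.span _ (h2 V D hD.opn (φ s) (φ (-s)) (X b) (hφ.aut s) (hX.cpl b))
    choose ξ hξ using h4
    obtain ⟨p, pts, l, κ, hp, hl⟩ := h1 V D d X hX.ind
    have h5 : ∀ x ∈ D, HasDerivAt (fun s : ℝ => Ad (φ s) (φ (-s)) (X b) x)
        (-(Br (X a) (X b) x)) 0 := fun x hx =>
      h3 V D hD (X a) (X b) φ ha (hX.cpl b).1 hφ x hx
    have h6 : ∀ e, HasDerivAt (fun s => ξ s e)
        (∑ i, κ e i * l i (-(Br (X a) (X b) (pts i)))) 0 := by
      intro e
      have h7 : (fun s => ξ s e) =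
          fun s => ∑ i, κ e i * l i (Ad (φ s) (φ (-s)) (X b) (pts i)) := by
        funext s
        rw [hl (ξ s) e]
        exact Finset.sum_congr rfl fun i _ => by rw [hξ s _ (hp i)]
      rw [h7]
      refine HasDerivAt.fun_sum fun i _ => ?_
      exact (((l i).hasFDerivAt.comp_hasDerivAt (0 : ℝ) (h5 _ (hp i))).const_mul (κ e i))
    refine ⟨fun e => -∑ i, κ e i * l i (-(Br (X a) (X b) (pts i))), fun x hx => ?_⟩
    have h8 : HasDerivAt (fun s => ev X (ξ s) x)
        (∑ e, ((∑ i, κ e i * l i (-(Br (X a) (X b) (pts i))) : ℝ) : ℂ) • X e x) 0 := by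
      refine HasDerivAt.fun_sum fun e _ => ?_
      exact (h6 e).ofReal_comp.smul_const (X e x)
    have h9 : (fun s => ev X (ξ s) x) = fun s => Ad (φ s) (φ (-s)) (X b) x := by
      funext s
      exact (hξ s x hx).symm
    rw [h9] at h8
    have h10 := h8.unique (h5 x hx)
    have h11 : ev X (fun e => -∑ i, κ e i * l i (-(Br (X a) (X b) (pts i)))) x =
        -∑ e, ((∑ i, κ e i * l i (-(Br (X a) (X b) (pts i))) : ℝ) : ℂ) • X e x := by
      unfold ev
      rw [← Finset.sum_neg_distrib]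
      exact Finset.sum_congr rfl fun e _ => by rw [Complex.ofReal_neg, neg_smul]
    rw [h11, h10, neg_neg]
  choose c hc using key
  exact ⟨c, fun a b x hx => hc a b x hx⟩

end KVB
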