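import Pool.Agent.Lib.KV.B.SpecU

/-!
# KV (MP_64edc4_ag), part B, block U, module TauI: the trace form is invariant
-/

set_option autoImplicit false

open Set Filter Topology Metric

namespace KVB

open KP

private theorem tauI_tau {d : ℕ} (c : Fin d → Fin d → Fin d → ℝ) (ξ : Fin d → ℝ) :
    tau c ξ = Matrix.trace (adm c ξ) := by
  unfold tau adm Matrix.trace Matrix.diag
  simp only [Finset.mul_sum]
  exact Finset.sum_comm

private theorem tauI_flow {V : Type} [NormedAddCommGroup V] [NormedSpace ℂ V] {D : Set V}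
    (hD : IsOpen D) {g h : V → V} (hg : Aut2 D g h) {X Y : V → V} {φ : ℝ → V → V}
    (hφ : Flow D X φ) (hXY : ∀ x ∈ D, fderiv ℂ g x (X x) = Y (g x)) :
    Flow D Y (fun s x => g (φ s (h x))) := by
  refine ⟨?_, ?_, ?_, ?_, ?_⟩
  · intro t
    exact hg.dg.comp ((hφ.dif t).comp hg.dh hg.mh) (fun x hx => hφ.maps t (hg.mh hx))
  · intro t x hx
    exact hg.mg (hφ.maps t (hg.mh hx))
  · intro x hx
    show g (φ 0 (h x)) = x
    rw [hφ.zero _ (hg.mh hx), hg.gh x hx]
  · intro s t x hx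
    show g (φ (s + t) (h x)) = g (φ s (h (g (φ t (h x)))))
    rw [hg.hg _ (hφ.maps t (hg.mh hx)), hφ.add s t _ (hg.mh hx)]
  · intro x hx t
    have h1 := hφ.der (h x) (hg.mh hx) t
    have h2 : φ t (h x) ∈ D := hφ.maps t (hg.mh hx)
    have h3 : HasFDerivAt g (fderiv ℂ g (φ t (h x))) (φ t (h x)) :=
      (hg.dg.differentiableAt (hD.mem_nhds h2)).hasFDerivAt
    have h4 := (h3.restrictScalars ℝ).comp_hasDerivAt t h1
    have h5 : Y (g (φ t (h x))) = fderiv ℂ g (φ t (h x)) (X (φ t (h x))) := (hXY _ h2).symm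
    show HasDerivAt (fun s => g (φ s (h x))) (Y (g (φ t (h x)))) t
    rw [h5]
    exact h4

theorem tTauI (h1 : S_EvC) (h2 : S_Rep1) (h3 : S_Rep2) : S_TauI := by
  intro V _ _ _ D hD d X hX c hc g h hg M hM ξ
  obtain ⟨r1, r2, r3, r4⟩ := h2 V D hD.opn d X hX
  obtain ⟨M', hM'⟩ := r1 h g hg.symm
  have e2 : M' * M = 1 := r4 h g M' M hg.symm hM' hM
  obtain ⟨_, φ, hφ⟩ := h1 V D hD d X hX.cpl ξ
  have hψ : Flow D (ev X (M.mulVec ξ)) (fun s x => g (φ s (h x))) :=
    tauI_flow hD.opn hg hφ (fun x hx => hM ξ x hx)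
  obtain ⟨A, hA, _, hA'⟩ := h3 V D hD d X hX c hc ξ φ hφ
  obtain ⟨B, hB, _, hB'⟩ := h3 V D hD d X hX c hc (M.mulVec ξ) _ hψ
  have e3 : ∀ s, B s = M * A s * M' := by
    intro s
    have a1 : Aut2 D (fun x => φ s (h x)) (fun x => g (φ (-s) x)) := (hφ.aut s).comp hg.symm
    have a2 := hg.comp a1
    have b1 : Rep D X (fun x => φ s (h x)) (A s * M') :=
      r3 _ _ _ _ _ _ (hφ.aut s) hg.symm (hA s) hM'
    have b2 := r3 _ _ _ _ _ _ hg a1 hM b1
    rw [Matrix.mul_assoc]
    exact r2 _ _ a2 _ _ (hB s) b2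
  have e4 : adm c (M.mulVec ξ) = M * adm c ξ * M' := by
    ext e b
    have d1 := hB' e b
    have d2 : HasDerivAt (fun s => (M * A s * M') e b) (-(M * adm c ξ * M') e b) 0 := by
      have t1 : (fun s => (M * A s * M') e b) =
          fun s => ∑ j, (∑ i, M e i * A s i j) * M' j b := by
        funext s
        simp only [Matrix.mul_apply]
      have t2 : -(M * adm c ξ * M') e b = ∑ j, (∑ i, M e i * (-(adm c ξ i j))) * M' j b := by
        simp only [Matrix.mul_apply, mul_neg, Finset.sum_neg_distrib, neg_mul]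
      rw [t1, t2]
      refine HasDerivAt.fun_sum fun j _ => ?_
      refine HasDerivAt.mul_const ?_ _
      refine HasDerivAt.fun_sum fun i _ => ?_
      exact (hA' i j).const_mul _
    have d3 : (fun s => B s e b) = fun s => (M * A s * M') e b := by
      funext s
      rw [e3 s]
    rw [d3] at d1
    have := d1.unique d2
    linarith
  rw [tauI_tau, tauI_tau, e4, Matrix.trace_mul_comm, ← Matrix.mul_assoc, e2, Matrix.one_mul]

end KVB
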