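import Pool.Agent.Lib.KV.B.SpecU

set_option autoImplicit false

open Set Filter Topology Metric

namespace KVB

open KP

namespace UniAux

lemma ev_single {V : Type} [NormedAddCommGroup V] [NormedSpace ℂ V] {d : ℕ}
    (X : Fin d → V → V) (a : Fin d) : ev X (Pi.single a 1) = X a := by
  funext x
  unfold ev
  rw [Finset.sum_eq_single a]
  · simp
  · intro b _ hb
    simp [Pi.single_eq_of_ne hb]
  · intro h
    exact absurd (Finset.mem_univ a) h

lemma ev_add {V : Type} [NormedAddCommGroup V] [NormedSpace ℂ V] {d : ℕ}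
    (X : Fin d → V → V) (ξ η : Fin d → ℝ) (x : V) :
    ev X (ξ + η) x = ev X ξ x + ev X η x := by
  unfold ev
  rw [← Finset.sum_add_distrib]
  apply Finset.sum_congr rfl
  intro a _
  rw [Pi.add_apply, Complex.ofReal_add, add_smul]

lemma adm_single {d : ℕ} (c : Fin d → Fin d → Fin d → ℝ) (a e b : Fin d) :
    adm c (Pi.single a 1) e b = c a b e := by
  unfold adm
  rw [Finset.sum_eq_single a]
  · simp
  · intro b' _ hb
    simp [Pi.single_eq_of_ne hb]
  · intro h
    exact absurd (Finset.mem_univ a) h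

lemma antisymm {V : Type} [NormedAddCommGroup V] [NormedSpace ℂ V] {D : Set V} {d : ℕ}
    {X : Fin d → V → V} (hF : Fam D X) {c : Fin d → Fin d → Fin d → ℝ} (hc : SC D X c)
    (a b : Fin d) : c a b + c b a = 0 := by
  apply hF.ind
  intro x hx
  rw [ev_add, ← hc a b x hx, ← hc b a x hx]
  unfold Br
  abel

/-- The trace form as a linear map. -/
noncomputable def tauL {d : ℕ} (c : Fin d → Fin d → Fin d → ℝ) : (Fin d → ℝ) →ₗ[ℝ] ℝ where
  toFun := tau c
  map_add' ξ η := by
    unfold tau
    rw [← Finset.sum_add_distrib]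
    apply Finset.sum_congr rfl
    intro a _
    rw [Pi.add_apply, add_mul]
  map_smul' t ξ := by
    unfold tau
    rw [RingHom.id_apply, smul_eq_mul, Finset.mul_sum]
    apply Finset.sum_congr rfl
    intro a _
    rw [Pi.smul_apply, smul_eq_mul, mul_assoc]

lemma tauL_apply {d : ℕ} (c : Fin d → Fin d → Fin d → ℝ) (ξ : Fin d → ℝ) :
    tauL c ξ = tau c ξ := rfl

lemma tau_single {d : ℕ} (c : Fin d → Fin d → Fin d → ℝ) (a : Fin d) :
    tau c (Pi.single a 1) = ∑ b, c a b b := by
  unfold tau
  rw [Finset.sum_eq_single a]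
  · simp
  · intro b' _ hb
    simp [Pi.single_eq_of_ne hb]
  · intro h
    exact absurd (Finset.mem_univ a) h

lemma integ {V : Type} [NormedAddCommGroup V] [NormedSpace ℂ V] [FiniteDimensional ℂ V]
    [MeasurableSpace V] [BorelSpace V] (μ : MeasureTheory.Measure V) [μ.IsAddHaarMeasure]
    {D Q : Set V} (hD : IsOpen D) (hQ : IsCompact Q) {F : V → ℝ}
    (hF : MeasureTheory.AEStronglyMeasurable F (μ.restrict D))
    (h0 : ∀ x ∈ D, x ∉ Q → F x = 0) (hC : ∃ C : ℝ, ∀ x ∈ Q, ‖F x‖ ≤ C) :
    MeasureTheory.Integrable F (μ.restrict D) := by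
  obtain ⟨C, hC⟩ := hC
  have h3 : MeasureTheory.Integrable (Q.indicator fun _ => C) (μ.restrict D) := by
    rw [MeasureTheory.integrable_indicator_iff hQ.measurableSet]
    have h4 : MeasureTheory.IntegrableOn (fun _ : V => C) Q μ :=
      (continuous_const.continuousOn).integrableOn_compact hQ
    exact h4.mono_measure MeasureTheory.Measure.restrict_le_self
  apply h3.mono' hF
  rw [MeasureTheory.ae_restrict_iff' hD.measurableSet]
  refine Eventually.of_forall fun x hx => ?_
  by_cases hxP : x ∈ Q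
  · rw [indicator_of_mem hxP]
    exact hC x hxP
  · rw [indicator_of_notMem hxP, h0 x hx hxP, norm_zero]

end UniAux

open UniAux

theorem tUni (h1 : S_DnB) (h2 : S_Rep1) (h3 : S_Rep2) (h4 : S_TauI) (h5 : S_MsI) (h6 : S_Nrm)
    (h7 : S_Bar) (h8 : S_Chi) (h9 : S_DInt) (h10 : S_IntB) : S_Uni := by
  intro V _ _ _ D hD Γ _ ρ hρ d X hF c hc
  have : FiniteDimensional ℝ V := FiniteDimensional.complexToReal V
  have : ProperSpace V := FiniteDimensional.proper ℂ V
  let _ : MeasurableSpace V := borel V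
  have : BorelSpace V := ⟨rfl⟩
  by_contra hne
  push Not at hne
  obtain ⟨a0, ha0⟩ := hne
  have hτ : tauL c ≠ 0 := by
    intro h
    apply ha0
    rw [← tau_single, ← tauL_apply, h, LinearMap.zero_apply]
  obtain ⟨N, hNc, hN, hNi⟩ := h6 V D hD d X hF
  obtain ⟨f, hfm, hfb, hfp, hfe⟩ := h7 V D hD.opn d N hNc hN (tauL c) hτ
  obtain ⟨hR1, -, -, hR4⟩ := h2 V D hD.opn d X hF
  have hequiv : ∀ g h M, Aut2 D g h → Rep D X g M → ∀ x ∈ D, f (g x) = M.mulVec (f x) := by
    intro g h M hgh hM x hx
    obtain ⟨M', hM'⟩ := hR1 h g hgh.symm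
    apply hfe x hx (g x) (hgh.mg hx) M
    · exact Matrix.isUnit_det_of_right_inverse (hR4 g h M M' hgh hM hM')
    · intro ξ
      rw [tauL_apply, tauL_apply]
      exact h4 V D hD d X hF c hc g h hgh M hM ξ
    · exact hNi g h M hgh hM x hx
  obtain ⟨χ, hχ, hχ1⟩ := h8 V D hD.opn Γ ρ hρ
  obtain ⟨hd1, -, hd3⟩ := h1 V D hD
  obtain ⟨μ, hμ⟩ : ∃ μ : MeasureTheory.Measure V, μ.IsAddHaarMeasure :=
    ⟨MeasureTheory.Measure.addHaar, inferInstance⟩
  have hDm : MeasurableSet D := hD.opn.measurableSet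
  have hPc : IsCompact (tsupport χ) := hχ.cpt
  have hdc : Continuous (fderiv ℝ χ) := hχ.smooth.continuous_fderiv one_ne_zero
  have hχc : Continuous χ := hχ.smooth.continuous
  have hb0 : ∀ y, y ∉ tsupport χ → fderiv ℝ χ y = 0 := fun y hy =>
    image_eq_zero_of_notMem_tsupport fun h => hy (tsupport_fderiv_subset ℝ h)
  have hfe' : ∀ e, Measurable fun x => f x e := fun e => (measurable_pi_apply e).comp hfm
  have hdm : MeasureTheory.AEStronglyMeasurable (dens D) (μ.restrict D) :=
    hd3.aestronglyMeasurable hDm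
  have hwm : ∀ e, MeasureTheory.AEStronglyMeasurable (fun x => f x e * dens D x)
      (μ.restrict D) := fun e => (hfe' e).aestronglyMeasurable.mul hdm
  have hwb : ∀ e, ∀ Q ⊆ D, IsCompact Q → ∃ C : ℝ, ∀ x ∈ Q, |f x e * dens D x| ≤ C := by
    intro e Q hQD hQ
    obtain ⟨C1, hC1⟩ := hfb Q hQD hQ
    obtain ⟨C2, hC2⟩ := hQ.exists_bound_of_continuousOn (hd3.mono hQD)
    refine ⟨|C1| * |C2|, fun x hx => ?_⟩
    rw [abs_mul]
    exact mul_le_mul (((norm_le_pi_norm (f x) e).trans (hC1 x hx)).trans (le_abs_self _))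
      ((hC2 x hx).trans (le_abs_self _)) (abs_nonneg _) (abs_nonneg _)
  -- the integration by parts along one field
  have step : ∀ a, ∫ x in D, fderiv ℝ χ x (X a x) * (f x a * dens D x) ∂μ =
      ∑ e, c a e a * ∫ x in D, χ x * (f x e * dens D x) ∂μ := by
    intro a
    obtain ⟨hXd, φ, hφ⟩ := hF.cpl a
    have hφ' : Flow D (ev X (Pi.single a 1)) φ := by rw [ev_single]; exact hφ
    obtain ⟨M, hM, hM0, hMd⟩ := h3 V D hD d X hF c hc (Pi.single a 1) φ hφ'
    have hφc : ∀ s, ContinuousOn (φ s) D := fun s => (hφ.dif s).continuousOn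
    have hint : ∀ s e, MeasureTheory.Integrable
        (fun x => χ (φ s x) * (f x e * dens D x)) (μ.restrict D) := by
      intro s e
      have hQ : IsCompact (φ (-s) '' tsupport χ) := hPc.image_of_continuousOn
        ((hφc (-s)).mono hχ.sub)
      have hQD : φ (-s) '' tsupport χ ⊆ D := by
        rintro _ ⟨y, hy, rfl⟩
        exact hφ.maps _ (hχ.sub hy)
      apply integ μ hD.opn hQ
      · exact ((hχc.comp_continuousOn (hφc s)).aestronglyMeasurable hDm).mul (hwm e)
      · intro x hx hxQ
        have h11 : φ s x ∉ tsupport χ := by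
          intro h
          apply hxQ
          exact ⟨φ s x, h, (hφ.aut s).hg x hx⟩
        rw [image_eq_zero_of_notMem_tsupport h11, zero_mul]
      · obtain ⟨C1, hC1⟩ := hQ.exists_bound_of_continuousOn (f := fun x => χ (φ s x))
          ((hχc.comp_continuousOn (hφc s)).mono hQD)
        obtain ⟨C2, hC2⟩ := hwb e _ hQD hQ
        refine ⟨|C1| * |C2|, fun x hx => ?_⟩
        rw [norm_mul]
        exact mul_le_mul ((hC1 x hx).trans (le_abs_self _))
          ((hC2 x hx).trans (le_abs_self _)) (norm_nonneg _) (abs_nonneg _)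
    have hconst : ∀ s, ∑ e, M s a e * ∫ x in D, χ (φ s x) * (f x e * dens D x) ∂μ =
        ∫ x in D, χ x * f x a * dens D x ∂μ := by
      intro s
      have e1 := h5 V μ D hD (φ s) (φ (-s)) (hφ.aut s) (fun x => χ x * f x a)
      rw [← e1]
      have e2 : ∀ e, M s a e * ∫ x in D, χ (φ s x) * (f x e * dens D x) ∂μ =
          ∫ x in D, M s a e * (χ (φ s x) * (f x e * dens D x)) ∂μ := fun e =>
        (MeasureTheory.integral_const_mul _ _).symm
      rw [Finset.sum_congr rfl fun e _ => e2 e,
        ← MeasureTheory.integral_finsetSum _ fun e _ => (hint s e).const_mul _]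
      apply MeasureTheory.setIntegral_congr_fun hDm
      intro x hx
      have e3 : f (φ s x) a = ∑ e, M s a e * f x e := by
        rw [hequiv (φ s) (φ (-s)) (M s) (hφ.aut s) (hM s) x hx]
        rfl
      simp only
      rw [e3, Finset.mul_sum, Finset.sum_mul]
      apply Finset.sum_congr rfl
      intro e _
      ring
    have hder : HasDerivAt
        (fun s => ∑ e, M s a e * ∫ x in D, χ (φ s x) * (f x e * dens D x) ∂μ)
        (∑ e, (-(adm c (Pi.single a 1) a e) *
          (∫ x in D, χ (φ 0 x) * (f x e * dens D x) ∂μ) + M 0 a e *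
          ∫ x in D, fderiv ℝ χ x (X a x) * (f x e * dens D x) ∂μ)) 0 := by
      apply HasDerivAt.fun_sum
      intro e _
      exact (hMd a e).mul (h9 V μ D hD (X a) φ hXd hφ χ hχ _ (hwm e) (hwb e))
    have hder0 : HasDerivAt
        (fun s => ∑ e, M s a e * ∫ x in D, χ (φ s x) * (f x e * dens D x) ∂μ) 0 0 := by
      rw [show (fun s => ∑ e, M s a e * ∫ x in D, χ (φ s x) * (f x e * dens D x) ∂μ) =
        fun _ => ∫ x in D, χ x * f x a * dens D x ∂μ from funext hconst]
      exact hasDerivAt_const _ _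
    have heq := hder.unique hder0
    rw [Finset.sum_add_distrib] at heq
    have e2 : ∑ e, M 0 a e * ∫ x in D, fderiv ℝ χ x (X a x) * (f x e * dens D x) ∂μ =
        ∫ x in D, fderiv ℝ χ x (X a x) * (f x a * dens D x) ∂μ := by
      rw [hM0, Finset.sum_eq_single a]
      · rw [Matrix.one_apply_eq, one_mul]
      · intro e _ he
        rw [Matrix.one_apply_ne (Ne.symm he), zero_mul]
      · intro h
        exact absurd (Finset.mem_univ a) h
    have e3 : ∀ e, ∫ x in D, χ (φ 0 x) * (f x e * dens D x) ∂μ =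
        ∫ x in D, χ x * (f x e * dens D x) ∂μ := by
      intro e
      apply MeasureTheory.setIntegral_congr_fun hDm
      intro x hx
      simp only [hφ.zero x hx]
    rw [e2] at heq
    have e4 : ∑ e, -(adm c (Pi.single a 1) a e) *
        (∫ x in D, χ (φ 0 x) * (f x e * dens D x) ∂μ) =
        -∑ e, c a e a * ∫ x in D, χ x * (f x e * dens D x) ∂μ := by
      rw [← Finset.sum_neg_distrib]
      apply Finset.sum_congr rfl
      intro e _
      rw [adm_single, e3 e, neg_mul]
    rw [e4] at heq
    linarith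
  -- the integral along the invariant field
  have hXc : ∀ a, ContinuousOn (X a) D := fun a => (hF.cpl a).1.continuousOn
  have hYm : MeasureTheory.AEStronglyMeasurable (fun x => ev X (f x) x) (μ.restrict D) := by
    unfold ev
    apply Finset.aestronglyMeasurable_fun_sum
    intro a _
    exact ((Complex.measurable_ofReal.comp (hfe' a)).aestronglyMeasurable).smul
      ((hXc a).aestronglyMeasurable hDm)
  have hYb : ∀ Q ⊆ D, IsCompact Q → ∃ C : ℝ, ∀ x ∈ Q, ‖ev X (f x) x‖ ≤ C := by
    intro Q hQD hQ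
    obtain ⟨C1, hC1⟩ := hfb Q hQD hQ
    have h11 : ∀ a, ∃ C : ℝ, ∀ x ∈ Q, ‖X a x‖ ≤ C := fun a =>
      hQ.exists_bound_of_continuousOn ((hXc a).mono hQD)
    choose C2 hC2 using h11
    refine ⟨∑ a, |C1| * |C2 a|, fun x hx => ?_⟩
    unfold ev
    apply norm_sum_le_of_le
    intro a _
    rw [norm_smul, Complex.norm_real]
    exact mul_le_mul (((norm_le_pi_norm (f x) a).trans (hC1 x hx)).trans (le_abs_self _))
      ((hC2 a x hx).trans (le_abs_self _)) (norm_nonneg _) (abs_nonneg _)
  have hYe : ∀ γ, ∀ x ∈ D, ev X (f (ρ γ x)) (ρ γ x) = fderiv ℂ (ρ γ) x (ev X (f x) x) := by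
    intro γ x hx
    obtain ⟨M, hM⟩ := hR1 _ _ (hρ.aut γ)
    rw [hequiv _ _ M (hρ.aut γ) hM x hx, hM (f x) x hx]
  have hz := h10 V μ D hD Γ ρ hρ χ hχ hχ1 (fun x => ev X (f x) x) hYm hYb hYe
  have hapR : Continuous fun p : (V →L[ℝ] ℝ) × V => p.1 p.2 := isBoundedBilinearMap_apply.continuous
  have hi3 : ∀ a, MeasureTheory.Integrable
      (fun x => fderiv ℝ χ x (X a x) * (f x a * dens D x)) (μ.restrict D) := by
    intro a
    apply integ μ hD.opn hPc
    · exact (hapR.comp_aestronglyMeasurable ((hdc.continuousOn.aestronglyMeasurable hDm).prodMk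
        ((hXc a).aestronglyMeasurable hDm))).mul (hwm a)
    · intro x _ hx
      rw [hb0 x hx, ContinuousLinearMap.zero_apply, zero_mul]
    · obtain ⟨C1, hC1⟩ := hPc.exists_bound_of_continuousOn
        (f := fun x => fderiv ℝ χ x (X a x))
        (hdc.continuousOn.clm_apply ((hXc a).mono hχ.sub))
      obtain ⟨C2, hC2⟩ := hwb a _ hχ.sub hPc
      refine ⟨|C1| * |C2|, fun x hx => ?_⟩
      rw [norm_mul]
      exact mul_le_mul ((hC1 x hx).trans (le_abs_self _))
        ((hC2 x hx).trans (le_abs_self _)) (norm_nonneg _) (abs_nonneg _)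
  have hsum1 : ∑ a, ∫ x in D, fderiv ℝ χ x (X a x) * (f x a * dens D x) ∂μ = 0 := by
    rw [← MeasureTheory.integral_finsetSum _ fun a _ => hi3 a, ← hz]
    apply MeasureTheory.setIntegral_congr_fun hDm
    intro x _
    simp only
    unfold ev
    rw [map_sum, Finset.sum_mul]
    apply Finset.sum_congr rfl
    intro a _
    rw [Complex.coe_smul, map_smul, smul_eq_mul]
    ring
  have hi4 : ∀ e, MeasureTheory.Integrable
      (fun x => χ x * (f x e * dens D x)) (μ.restrict D) := by
    intro e
    apply integ μ hD.opn hPc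
    · exact (hχc.continuousOn.aestronglyMeasurable hDm).mul (hwm e)
    · intro x _ hx
      rw [image_eq_zero_of_notMem_tsupport hx, zero_mul]
    · obtain ⟨C1, hC1⟩ := hPc.exists_bound_of_continuousOn (f := χ) hχc.continuousOn
      obtain ⟨C2, hC2⟩ := hwb e _ hχ.sub hPc
      refine ⟨|C1| * |C2|, fun x hx => ?_⟩
      rw [norm_mul]
      exact mul_le_mul ((hC1 x hx).trans (le_abs_self _))
        ((hC2 x hx).trans (le_abs_self _)) (norm_nonneg _) (abs_nonneg _)
  have hsum2 : ∑ e, (∑ a, c e a a) * ∫ x in D, χ x * (f x e * dens D x) ∂μ = 0 := by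
    have e1 : ∑ a, ∑ e, c a e a * ∫ x in D, χ x * (f x e * dens D x) ∂μ = 0 := by
      rw [← hsum1]
      exact Finset.sum_congr rfl fun a _ => (step a).symm
    rw [Finset.sum_comm] at e1
    have e2 : ∀ e a, c a e a = -(c e a a) := by
      intro e a
      have := congrFun (antisymm hF hc a e) a
      rw [Pi.add_apply, Pi.zero_apply] at this
      linarith
    rw [← neg_eq_zero, ← e1, ← Finset.sum_neg_distrib]
    apply Finset.sum_congr rfl
    intro e _
    rw [Finset.sum_mul, ← Finset.sum_neg_distrib]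
    apply Finset.sum_congr rfl
    intro a _
    rw [e2 e a]
    ring
  have hi5 : MeasureTheory.Integrable (fun x => χ x * tau c (f x) * dens D x)
      (μ.restrict D) := by
    have e1 : (fun x => χ x * tau c (f x) * dens D x) =
        fun x => ∑ e, (∑ a, c e a a) * (χ x * (f x e * dens D x)) := by
      funext x
      unfold tau
      rw [Finset.mul_sum, Finset.sum_mul]
      apply Finset.sum_congr rfl
      intro e _
      ring
    rw [e1]
    exact MeasureTheory.integrable_finsetSum _ fun e _ => (hi4 e).const_mul _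
  have hzero : ∫ x in D, χ x * tau c (f x) * dens D x ∂μ = 0 := by
    rw [← hsum2]
    have e1 : ∀ e, (∑ a, c e a a) * ∫ x in D, χ x * (f x e * dens D x) ∂μ =
        ∫ x in D, (∑ a, c e a a) * (χ x * (f x e * dens D x)) ∂μ := fun e =>
      (MeasureTheory.integral_const_mul _ _).symm
    rw [Finset.sum_congr rfl fun e _ => e1 e,
      ← MeasureTheory.integral_finsetSum _ fun e _ => (hi4 e).const_mul _]
    congr 1
    funext x
    unfold tau
    rw [Finset.mul_sum, Finset.sum_mul]
    apply Finset.sum_congr rfl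
    intro e _
    ring
  have hpos : 0 < ∫ x in D, χ x * tau c (f x) * dens D x ∂μ := by
    rw [MeasureTheory.integral_pos_iff_support_of_nonneg_ae _ hi5]
    · have hU : IsOpen {x | χ x ≠ 0} := isOpen_ne_fun hχc continuous_const
      have hUD : {x | χ x ≠ 0} ⊆ D := fun x hx => hχ.sub (subset_tsupport _ hx)
      have hUne : {x | χ x ≠ 0}.Nonempty := by
        obtain ⟨x, hx⟩ := hD.nem
        by_contra hcon
        rw [not_nonempty_iff_eq_empty] at hcon
        have e1 := (hχ1 x hx).2
        have e2 : ∀ γ, χ (ρ γ x) = 0 := by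
          intro γ
          by_contra h
          have : ρ γ x ∈ {x | χ x ≠ 0} := h
          rw [hcon] at this
          exact this
        simp only [e2, finsum_zero] at e1
        exact zero_ne_one e1
      have e1 : 0 < μ {x | χ x ≠ 0} := hU.measure_pos μ hUne
      refine lt_of_lt_of_le e1 ?_
      rw [← MeasureTheory.Measure.restrict_eq_self μ hUD]
      apply MeasureTheory.measure_mono
      intro x hx
      have hxD := hUD hx
      have p1 : 0 < χ x := lt_of_le_of_ne (hχ.nonneg x) (Ne.symm hx)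
      exact (mul_pos (mul_pos p1 (hfp x hxD)) (hd1 x hxD)).ne'
    · rw [Filter.EventuallyLE, MeasureTheory.ae_restrict_iff' hDm]
      refine Eventually.of_forall fun x hx => ?_
      exact mul_nonneg (mul_nonneg (hχ.nonneg x) (hfp x hx).le) (hd1 x hx).le
  exact hpos.ne' hzero

end KVB
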